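import Pool.Agent.Lib_helper5.RDF.Count
import Pool.Agent.Lib_helper5.EvenT5
import Pool.Agent.Lib_helper4.Inert

/-!
The Kronecker symbol of the even discriminants `4d`.
-/

namespace Pool.Agent.Lib_helper5.RDF

open Pool.Agent.LibH4

/-- the Kronecker symbol `(4d/l)` -/
def kr (d : ℕ) (l : ℕ) : ℤ := if l % 2 = 0 then 0 else jacobiSym d l

lemma kr_even {d l : ℕ} (h : l % 2 = 0) : kr d l = 0 := by simp [kr, h]

lemma kr_odd {d l : ℕ} (h : l % 2 = 1) : kr d l = jacobiSym d l := by simp [kr, h]

lemma kr_one (d : ℕ) : kr d 1 = 1 := by simp [kr]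

lemma kr_mul (d a b : ℕ) : kr d (a * b) = kr d a * kr d b := by
  rcases Nat.mod_two_eq_zero_or_one a with ha | ha
  · rw [kr_even ha, kr_even (by rw [Nat.mul_mod, ha]; simp), zero_mul]
  · rcases Nat.mod_two_eq_zero_or_one b with hb | hb
    · rw [kr_even hb, kr_even (by rw [Nat.mul_mod, hb]; simp), mul_zero]
    · have : NeZero a := ⟨by rintro rfl; simp at ha⟩
      have : NeZero b := ⟨by rintro rfl; simp at hb⟩
      rw [kr_odd ha, kr_odd hb, kr_odd (by rw [Nat.mul_mod, ha, hb]), jacobiSym.mul_right]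

lemma kr_mod (d n : ℕ) : kr d (n % (4 * d)) = kr d n := by
  rcases Nat.mod_two_eq_zero_or_one n with hn | hn
  · rw [kr_even hn, kr_even]
    rw [Nat.mod_mod_of_dvd _ (Dvd.intro (2 * d) (by ring)), hn]
  · rw [kr_odd hn, kr_odd (by rw [Nat.mod_mod_of_dvd _ (Dvd.intro (2 * d) (by ring)), hn])]
    rw [jacobiSym.mod_right (d : ℤ) (b := n) (Nat.odd_iff.2 hn), Int.natAbs_natCast]

lemma kr_prime {d p : ℕ} (hp : p.Prime) (hp2 : p ≠ 2) : kr d p = jacobiSym d p :=
  kr_odd (Nat.odd_iff.1 (hp.odd_of_ne_two hp2))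

/-- the character of the order of discriminant `4d` -/
lemma kr_isKr {d : ℕ} {m B b : ℤ} (hB : B = 2 * b) (hd : (d : ℤ) = b ^ 2 + m) :
    Kr m B (4 * d) (kr d) where
  hD := by push_cast; rw [hd, hB]; ring
  one := kr_one d
  mul := kr_mul d
  tri p hp := by
    rcases eq_or_ne p 2 with rfl | hp2
    · left; exact kr_even rfl
    · rw [kr_prime hp hp2]
      exact jacobiSym.trichotomy _ _
  inert p hp hj x y hxy := by
    have hp2 : p ≠ 2 := by
      rintro rfl
      rw [kr_even rfl] at hj
      norm_num at hj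
    have : Fact p.Prime := ⟨hp⟩
    rw [kr_prime hp hp2, ← jacobiSym.legendreSym.to_jacobiSym, legendreSym.eq_neg_one_iff] at hj
    by_contra hy
    apply hj
    have hy0 : (y : ZMod p) ≠ 0 := by
      rw [Ne, ZMod.intCast_zmod_eq_zero_iff_dvd]; exact hy
    rw [← ZMod.intCast_zmod_eq_zero_iff_dvd] at hxy
    refine ⟨((x : ZMod p) + b * y) / y, ?_⟩
    have h5 : ((x : ZMod p) + b * y) ^ 2 = d * (y : ZMod p) ^ 2 := by
      have h6 : ((d : ℤ) : ZMod p) = (b : ZMod p) ^ 2 + m := by rw [hd]; push_cast; ring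
      have h7 : ((d : ℕ) : ZMod p) = ((d : ℤ) : ZMod p) := by push_cast; rfl
      rw [h7, h6]
      rw [hB] at hxy
      push_cast at hxy
      linear_combination hxy
    push_cast
    field_simp
    linear_combination -h5
  root p hp hj := by
    rcases eq_or_ne p 2 with rfl | hp2
    · refine ⟨m, ?_⟩
      rw [hB]
      obtain ⟨c, hc⟩ := (Int.even_mul_pred_self m).two_dvd
      refine ⟨c + b * m, ?_⟩
      push_cast
      linear_combination hc
    · rw [kr_prime hp hp2] at hj
      apply exists_root_of_ne (d := 4 * d) (by push_cast; rw [hd, hB]; ring) hp hp2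
      have h4 : jacobiSym (((4 * d : ℕ) : ℤ)) p = jacobiSym d p := by
        push_cast
        rw [jacobiSym.mul_left]
        have h5 : jacobiSym (4 : ℤ) p = 1 := by
          have h6 : (4 : ℤ) = 2 * 2 := by norm_num
          rw [h6, jacobiSym.mul_left, ← sq]
          apply jacobiSym.sq_one
          have := (Nat.coprime_primes Nat.prime_two hp).2 (Ne.symm hp2)
          simpa [Int.gcd] using this
        rw [h5, one_mul]
      rwa [h4]
  split p hp hj := by
    have hp2 : p ≠ 2 := by
      rintro rfl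
      rw [kr_even rfl] at hj
      norm_num at hj
    refine ⟨hp2, ?_⟩
    intro hdvd
    have h1 : p ∣ d := by
      have h2 : Nat.Coprime p 4 := by
        have h6 : Nat.Coprime p 2 := (Nat.coprime_primes hp Nat.prime_two).2 hp2
        exact h6.mul_right h6
      exact h2.dvd_of_dvd_mul_left hdvd
    rw [kr_prime hp hp2] at hj
    have : NeZero p := ⟨hp.ne_zero⟩
    have h3 : jacobiSym d p = 0 := by
      rw [jacobiSym.eq_zero_iff_not_coprime]
      rw [Int.gcd_natCast_natCast, Nat.gcd_eq_right h1]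
      exact hp.one_lt.ne'
    rw [h3] at hj
    norm_num at hj
  ram p hp hj := by
    rcases eq_or_ne p 2 with rfl | hp2
    · exact ⟨2 * d, by ring⟩
    · rw [kr_prime hp hp2] at hj
      have : NeZero p := ⟨hp.ne_zero⟩
      rw [jacobiSym.eq_zero_iff_not_coprime, Int.gcd_natCast_natCast] at hj
      apply Dvd.dvd.mul_left
      by_contra hcon
      exact hj ((Nat.Prime.coprime_iff_not_dvd hp).2 hcon).symm

/-- numbers `≡ 1 mod q` at which the symbol is `-1` -/
lemma exists_kr_neg {q d : ℕ} (hd0 : 0 < d) (hd : d % 4 = 2 ∨ d % 4 = 3) (hq2 : q % 2 = 1)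
    (hcop : Nat.Coprime q d) :
    ∃ N : ℕ, N ≡ 1 [MOD q] ∧ Nat.Coprime N (q * (4 * d)) ∧ kr d N = -1 := by
  have hq4 : Nat.Coprime q 4 := by
    have h6 : Nat.Coprime q 2 := by
      rw [Nat.coprime_comm, Nat.coprime_two_left]; exact Nat.odd_iff.2 hq2
    exact h6.mul_right h6
  rcases hd with hd | hd
  · -- `d = 2 d'`
    obtain ⟨d', rfl⟩ : ∃ d', d = 2 * d' := ⟨d / 2, by omega⟩
    have hd' : d' % 2 = 1 := by omega
    have hcop' : Nat.Coprime q d' := Nat.Coprime.coprime_mul_left_right hcop
    have h8 : Nat.Coprime (q * d') 8 := by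
      have h6 : Nat.Coprime (q * d') 2 := by
        rw [Nat.coprime_comm, Nat.coprime_two_left]
        exact (Nat.odd_iff.2 hq2).mul (Nat.odd_iff.2 hd')
      exact (h6.mul_right h6).mul_right h6
    obtain ⟨N, hN1, hN2⟩ := Nat.chineseRemainder h8 1 5
    have hN8 : N % 8 = 5 := hN2
    have hNodd : Odd N := Nat.odd_iff.2 (by omega)
    have hNqd : Nat.Coprime N (q * d') := by
      have := hN1.gcd_eq
      rw [Nat.gcd_one_left] at this
      exact this
    have hN2' : Nat.Coprime N 2 := by
      rw [Nat.coprime_comm, Nat.coprime_two_left]; exact hNodd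
    refine ⟨N, hN1.of_mul_right d', ?_, ?_⟩
    · have e : q * (4 * (2 * d')) = (q * d') * (2 * 2 * 2) := by ring
      rw [e]
      exact hNqd.mul_right ((hN2'.mul_right hN2').mul_right hN2')
    · rw [kr_odd (by omega)]
      push_cast
      rw [jacobiSym.mul_left]
      have h2 : jacobiSym 2 N = -1 := by
        rw [jacobiSym.at_two hNodd, ZMod.χ₈_nat_eq_if_mod_eight]
        simp [hN8]
        omega
      have h3 : jacobiSym (d' : ℤ) N = 1 := by
        rw [← jacobiSym.quadratic_reciprocity_one_mod_four (a := N) (b := d') (by omega)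
          (Nat.odd_iff.2 hd')]
        have h4 : (N : ℤ) % d' = 1 % d' := by
          have h5 : N ≡ 1 [MOD d'] := hN1.of_mul_left q
          exact_mod_cast h5
        rw [jacobiSym.mod_left, h4, ← jacobiSym.mod_left, jacobiSym.one_left]
      rw [h2, h3]
      norm_num
  · have hdodd : d % 2 = 1 := by omega
    have h4 : Nat.Coprime (q * d) 4 := by
      have h6 : Nat.Coprime (q * d) 2 := by
        rw [Nat.coprime_comm, Nat.coprime_two_left]
        exact (Nat.odd_iff.2 hq2).mul (Nat.odd_iff.2 hdodd)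
      exact h6.mul_right h6
    obtain ⟨N, hN1, hN2⟩ := Nat.chineseRemainder h4 1 3
    have hN4 : N % 4 = 3 := hN2
    have hNodd : Odd N := Nat.odd_iff.2 (by omega)
    have hNqd : Nat.Coprime N (q * d) := by
      have := hN1.gcd_eq
      rw [Nat.gcd_one_left] at this
      exact this
    have hN2' : Nat.Coprime N 2 := by
      rw [Nat.coprime_comm, Nat.coprime_two_left]; exact hNodd
    refine ⟨N, hN1.of_mul_right d, ?_, ?_⟩
    · have e : q * (4 * d) = (q * d) * (2 * 2) := by ring
      rw [e]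
      exact hNqd.mul_right (hN2'.mul_right hN2')
    · rw [kr_odd (by omega)]
      rw [jacobiSym.quadratic_reciprocity_three_mod_four (a := d) (b := N) hd hN4]
      have h4 : (N : ℤ) % d = 1 % d := by
        have h5 : N ≡ 1 [MOD d] := hN1.of_mul_left q
        exact_mod_cast h5
      rw [jacobiSym.mod_left, h4, ← jacobiSym.mod_left, jacobiSym.one_left]

end Pool.Agent.Lib_helper5.RDF
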