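import Pool.Agent.Lib_helper4.Counting

/-!
Counting elements of given norm in a quadratic order with unique factorisation, for a general
discriminant and its character.
-/

namespace Pool.Agent.Lib_helper5.RDF

open Pool.Agent.LibH4

/-- the divisor sum of a character -/
def sg (ψ : ℕ → ℤ) (n : ℕ) : ℤ := ∑ l ∈ n.divisors, ψ l

/-- `ψ` is the quadratic character of the order `ℤ[ω]`, `ω² = m + B ω`, of discriminant `D`;
the prime `2` is not split -/
structure Kr (m B : ℤ) (D : ℕ) (ψ : ℕ → ℤ) : Prop where
  hD : (D : ℤ) = B ^ 2 + 4 * m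
  one : ψ 1 = 1
  mul : ∀ a b, ψ (a * b) = ψ a * ψ b
  tri : ∀ p, p.Prime → ψ p = 0 ∨ ψ p = 1 ∨ ψ p = -1
  inert : ∀ p : ℕ, p.Prime → ψ p = -1 → ∀ x y : ℤ,
    (p : ℤ) ∣ x * x + B * x * y - m * y * y → (p : ℤ) ∣ y
  root : ∀ p : ℕ, p.Prime → ψ p ≠ -1 → ∃ x : ℤ, (p : ℤ) ∣ x ^ 2 + B * x - m
  split : ∀ p : ℕ, p.Prime → ψ p = 1 → p ≠ 2 ∧ ¬ p ∣ D
  ram : ∀ p : ℕ, p.Prime → ψ p = 0 → p ∣ D

lemma sg_one {ψ : ℕ → ℤ} (h : ψ 1 = 1) : sg ψ 1 = 1 := by
  simp [sg, h]

lemma sg_rec {ψ : ℕ → ℤ} (hmul : ∀ a b, ψ (a * b) = ψ a * ψ b) {p n : ℕ} (hp : p.Prime) (hn : n ≠ 0) :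
    sg ψ (p * n) = (1 + ψ p) * sg ψ n -
      ψ p * (if p ∣ n then sg ψ (n / p) else 0) := by
  have hinter : n.divisors ∩ n.divisors.image (fun l => p * l) =
      if p ∣ n then (n / p).divisors.image (fun l => p * l) else ∅ := by
    split_ifs with h
    · obtain ⟨n', rfl⟩ := h
      have hn' : n' ≠ 0 := by rintro rfl; simp at hn
      rw [Nat.mul_div_cancel_left _ hp.pos]
      ext l
      simp only [Nat.mem_divisors, Finset.mem_inter, Finset.mem_image]
      constructor
      · rintro ⟨⟨h1, h2⟩, l', ⟨h3, _⟩, rfl⟩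
        exact ⟨l', ⟨Nat.dvd_of_mul_dvd_mul_left hp.pos h1, hn'⟩, rfl⟩
      · rintro ⟨l', ⟨h1, _⟩, rfl⟩
        exact ⟨⟨Nat.mul_dvd_mul_left p h1, hn⟩, l', ⟨h1.mul_left p, hn⟩, rfl⟩
    · rw [Finset.eq_empty_iff_forall_notMem]
      intro l hl
      simp only [Nat.mem_divisors, Finset.mem_inter, Finset.mem_image] at hl
      obtain ⟨⟨h1, _⟩, l', _, rfl⟩ := hl
      exact h ((Dvd.intro l' rfl).trans h1)
  have hsum := Finset.sum_union_inter (s₁ := n.divisors) (s₂ := n.divisors.image (fun l => p * l))
    (f := fun l => ψ l)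
  rw [← divisors_prime_mul hp hn, hinter] at hsum
  have hinj : Set.InjOn (fun l => p * l) (n.divisors : Set ℕ) := by
    intro a _ b _ hab
    exact Nat.eq_of_mul_eq_mul_left hp.pos hab
  rw [Finset.sum_image hinj] at hsum
  have himg : ∑ x ∈ n.divisors, ψ (p * x) = ψ p * sg ψ n := by
    rw [sg, Finset.mul_sum]
    apply Finset.sum_congr rfl
    intro x _
    rw [hmul]
  rw [himg] at hsum
  have hlast : ∑ x ∈ (if p ∣ n then (n / p).divisors.image (fun l => p * l) else ∅),
      ψ x = ψ p * (if p ∣ n then sg ψ (n / p) else 0) := by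
    split_ifs with h
    · have hinj' : Set.InjOn (fun l => p * l) ((n / p).divisors : Set ℕ) := by
        intro a _ b _ hab
        exact Nat.eq_of_mul_eq_mul_left hp.pos hab
      rw [Finset.sum_image hinj', sg, Finset.mul_sum]
      apply Finset.sum_congr rfl
      intro x _
      rw [hmul]
    · simp
  rw [hlast] at hsum
  unfold sg at *
  linarith


variable {m B : ℤ} {D : ℕ} {ψ : ℕ → ℤ}

/-- inert primes divide an element as soon as they divide its norm -/
lemma Kr.dvd_of_dvd_norm (h : Kr m B D ψ) {p : ℕ} (hp : p.Prime) (hj : ψ p = -1)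
    (z : QuadraticAlgebra ℤ m B) (hz : (p : ℤ) ∣ z.norm) :
    ((p : ℕ) : QuadraticAlgebra ℤ m B) ∣ z := by
  have hpp : Prime (p : ℤ) := Nat.prime_iff_prime_int.mp hp
  have key : (p : ℤ) ∣ z.im := by
    apply h.inert p hp hj z.re z.im
    rwa [QuadraticAlgebra.norm_def] at hz
  have hre2 : (p : ℤ) ∣ z.re * z.re := by
    have e : z.re * z.re = z.norm - z.im * (B * z.re - m * z.im) := by
      rw [QuadraticAlgebra.norm_def]; ring
    rw [e]
    exact dvd_sub hz (key.mul_right _)
  have hre : (p : ℤ) ∣ z.re := by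
    rcases hpp.dvd_or_dvd hre2 with h | h <;> exact h
  have h := (intCast_dvd_quad (p : ℤ) z).mpr ⟨hre, key⟩
  exact_mod_cast h

/-- noninert primes: existence of a prime element of norm `±p` -/
lemma Kr.exists_prime_elem [IsDomain (QuadraticAlgebra ℤ m B)]
    [UniqueFactorizationMonoid (QuadraticAlgebra ℤ m B)] (hK : Kr m B D ψ) {p : ℕ}
    (hp : p.Prime) (hj : ψ p ≠ -1) :
    ∃ π : QuadraticAlgebra ℤ m B, Prime π ∧ Prime (star π) ∧ π.norm.natAbs = p := by
  obtain ⟨x, hx⟩ := hK.root p hp hj
  have hnp : ¬ Prime ((p : ℕ) : QuadraticAlgebra ℤ m B) := by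
    intro hprime
    have h1 : ((p : ℕ) : QuadraticAlgebra ℤ m B) ∣ lin x * star (lin x) := by
      rw [← intCast_norm_eq, norm_lin]
      have := (Int.cast_dvd_cast (α := QuadraticAlgebra ℤ m B) _ _ hx)
      exact_mod_cast this
    rcases hprime.dvd_or_dvd h1 with h | h
    · exact not_dvd_lin hp x h
    · exact not_dvd_star_lin hp x h
  rw [← UniqueFactorizationMonoid.irreducible_iff_prime] at hnp
  have hu := natCast_not_unit (m := m) (B := B) hp
  have : ∃ u v : QuadraticAlgebra ℤ m B, ((p : ℕ) : QuadraticAlgebra ℤ m B) = u * v ∧ ¬ IsUnit u ∧ ¬ IsUnit v := by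
    by_contra hcon
    push Not at hcon
    apply hnp
    refine ⟨hu, ?_⟩
    intro a b hab
    by_contra hh
    push Not at hh
    exact hh.2 (hcon a b hab hh.1)
  obtain ⟨u, v, huv, hu', hv'⟩ := this
  have hN : u.norm.natAbs * v.norm.natAbs = p ^ 2 := by
    rw [← Int.natAbs_mul, ← map_mul, ← huv, natAbs_norm_natCast]
  rw [QuadraticAlgebra.isUnit_iff_norm_isUnit, Int.isUnit_iff_natAbs_eq] at hu' hv'
  have hup : u.norm.natAbs = p := by
    have := (Nat.Prime.mul_eq_prime_sq_iff hp hu' hv').mp hN
    exact this.1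
  refine ⟨u, ?_, ?_, hup⟩
  · rw [← UniqueFactorizationMonoid.irreducible_iff_prime]
    exact irreducible_of_prime_norm hp u hup
  · rw [← UniqueFactorizationMonoid.irreducible_iff_prime]
    exact irreducible_of_prime_norm hp _ (by rw [QuadraticAlgebra.norm_star]; exact hup)

/-- split primes -/
lemma Kr.not_associated_star (hK : Kr m B D ψ) {p : ℕ}
    (hp : p.Prime) (hj : ψ p = 1) (π : QuadraticAlgebra ℤ m B)
    (hπ : π.norm.natAbs = p) (hprime : Prime π) : ¬ π ∣ star π := by
  intro hdvd
  obtain ⟨hp2, hpD⟩ := hK.split p hp hj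
  have hpp : Prime (p : ℤ) := Nat.prime_iff_prime_int.mp hp
  -- trace
  set T : ℤ := 2 * π.re + B * π.im with hT
  have hTr : ((T : ℤ) : QuadraticAlgebra ℤ m B) = π + star π := by
    ext
    · rw [QuadraticAlgebra.re_intCast, QuadraticAlgebra.re_add, QuadraticAlgebra.re_star, hT,
        Int.cast_id]
      ring
    · simp
  have hπT : π ∣ ((T : ℤ) : QuadraticAlgebra ℤ m B) := by
    rw [hTr]; exact dvd_add (dvd_refl _) hdvd
  have hπp : π ∣ (((p : ℕ) : ℤ) : QuadraticAlgebra ℤ m B) := by
    have := (dvd_natCast_of_norm π hπ).dvd_iff_dvd_right.mp (Dvd.intro _ rfl : π ∣ π * star π)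
    exact_mod_cast this
  have hpT : (p : ℤ) ∣ T := by
    by_contra hpT
    have hcop : IsCoprime (p : ℤ) T := (Irreducible.coprime_iff_not_dvd hpp.irreducible).mpr hpT
    obtain ⟨a, b, hab⟩ := hcop
    apply hprime.not_isUnit
    apply isUnit_of_dvd_one
    have : (1 : QuadraticAlgebra ℤ m B) = (a : QuadraticAlgebra ℤ m B) * (((p : ℕ) : ℤ) : QuadraticAlgebra ℤ m B)
        + (b : QuadraticAlgebra ℤ m B) * ((T : ℤ) : QuadraticAlgebra ℤ m B) := by
      have := congrArg (fun t : ℤ => (t : QuadraticAlgebra ℤ m B)) hab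
      push_cast at this ⊢
      exact this.symm
    rw [this]
    exact dvd_add (hπp.mul_left _) (hπT.mul_left _)
  have h4 := four_norm π
  rw [← hK.hD, ← hT] at h4
  have hpN : (p : ℤ) ∣ π.norm := by
    rw [Int.natCast_dvd, hπ]
  have hpd : (p : ℤ) ∣ D * π.im ^ 2 := by
    have e : (D : ℤ) * π.im ^ 2 = T ^ 2 - 4 * π.norm := by rw [h4]; ring
    rw [e]
    exact dvd_sub (dvd_pow hpT two_ne_zero) (hpN.mul_left 4)
  have hpd' : ¬ (p : ℤ) ∣ D := by
    intro h
    exact hpD (by exact_mod_cast h)
  have hpim : (p : ℤ) ∣ π.im := hpp.dvd_of_dvd_pow ((hpp.dvd_or_dvd hpd).resolve_left hpd')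
  have hp2N : (p : ℤ) ^ 2 ∣ 4 * π.norm := by
    rw [h4]
    exact dvd_sub (pow_dvd_pow_of_dvd hpT 2) ((pow_dvd_pow_of_dvd hpim 2).mul_left _)
  have hp2N' : p ^ 2 ∣ 4 * p := by
    have := Int.natAbs_dvd_natAbs.mpr hp2N
    rw [Int.natAbs_mul, hπ] at this
    simpa [Int.natAbs_pow] using this
  have hp4 : p ∣ 4 := by
    rw [sq] at hp2N'
    exact Nat.dvd_of_mul_dvd_mul_right hp.pos hp2N'
  have : p ∣ 2 := by
    have : p ∣ 2 * 2 := by norm_num; exact hp4
    rcases (Nat.Prime.dvd_mul hp).mp this with h | h <;> exact h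
  exact hp2 ((Nat.prime_dvd_prime_iff_eq hp Nat.prime_two).mp this)


/-- ramified primes -/
lemma Kr.dvd_star_of_ramified (hK : Kr m B D ψ) {p : ℕ}
    (hp : p.Prime) (hj : ψ p = 0) (π : QuadraticAlgebra ℤ m B)
    (hπ : π.norm.natAbs = p) : π ∣ star π := by
  have hpp : Prime (p : ℤ) := Nat.prime_iff_prime_int.mp hp
  have hpd : (p : ℤ) ∣ D := by exact_mod_cast hK.ram p hp hj
  set T : ℤ := 2 * π.re + B * π.im with hT
  have hTr : ((T : ℤ) : QuadraticAlgebra ℤ m B) = π + star π := by
    ext
    · rw [QuadraticAlgebra.re_intCast, QuadraticAlgebra.re_add, QuadraticAlgebra.re_star, hT,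
        Int.cast_id]
      ring
    · simp
  have h4 := four_norm π
  rw [← hK.hD, ← hT] at h4
  have hpN : (p : ℤ) ∣ π.norm := by
    rw [Int.natCast_dvd, hπ]
  have hpT2 : (p : ℤ) ∣ T ^ 2 := by
    have e : T ^ 2 = 4 * π.norm + D * π.im ^ 2 := by rw [h4]; ring
    rw [e]
    exact dvd_add (hpN.mul_left 4) (hpd.mul_right _)
  have hpT : (p : ℤ) ∣ T := hpp.dvd_of_dvd_pow hpT2
  have hπp : π ∣ (((p : ℕ) : ℤ) : QuadraticAlgebra ℤ m B) := by
    have := (dvd_natCast_of_norm π hπ).dvd_iff_dvd_right.mp (Dvd.intro _ rfl : π ∣ π * star π)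
    exact_mod_cast this
  have hπT : π ∣ ((T : ℤ) : QuadraticAlgebra ℤ m B) :=
    hπp.trans (Int.cast_dvd_cast (α := QuadraticAlgebra ℤ m B) _ _ hpT)
  rw [hTr] at hπT
  exact (dvd_add_right (dvd_refl π)).mp hπT

/-- recursion, inert case -/
lemma Kr.SN_inert [IsDomain (QuadraticAlgebra ℤ m B)] (hK : Kr m B D ψ) {p n : ℕ}
    (hp : p.Prime) (hj : ψ p = -1) :
    SN m B (p * n) = if p ∣ n then (fun c => Associates.mk ((p : ℕ) : QuadraticAlgebra ℤ m B) * c) ''
      (SN m B (n / p)) else ∅ := by
  have key : ∀ c ∈ SN m B (p * n), ∃ c', c = Associates.mk ((p : ℕ) : QuadraticAlgebra ℤ m B) * c' ∧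
      n = p * absN c' := by
    intro c hc
    obtain ⟨z, rfl⟩ := Associates.mk_surjective c
    change (z.norm).natAbs = p * n at hc
    have h1 : (p : ℤ) ∣ z.norm := by
      rw [Int.natCast_dvd, hc]; exact Dvd.intro _ rfl
    obtain ⟨w, hw⟩ := hK.dvd_of_dvd_norm hp hj z h1
    refine ⟨Associates.mk w, by rw [hw, Associates.mk_mul_mk], ?_⟩
    rw [absN_mk]
    have h2 : p * n = p ^ 2 * w.norm.natAbs := by
      rw [← hc, hw, map_mul, Int.natAbs_mul, natAbs_norm_natCast]
    have h3 : p * n = p * (p * w.norm.natAbs) := by rw [h2]; ring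
    exact Nat.eq_of_mul_eq_mul_left hp.pos h3
  split_ifs with h
  · obtain ⟨n', rfl⟩ := h
    rw [Nat.mul_div_cancel_left _ hp.pos]
    ext c
    constructor
    · intro hc
      obtain ⟨c', rfl, hc'⟩ := key c hc
      exact ⟨c', (Nat.eq_of_mul_eq_mul_left hp.pos hc').symm, rfl⟩
    · rintro ⟨c', hc', rfl⟩
      change absN _ = _
      rw [absN_mul, absN_mk_natCast, hc']
      ring
  · rw [Set.eq_empty_iff_forall_notMem]
    intro c hc
    obtain ⟨c', -, hc'⟩ := key c hc
    exact h ⟨_, hc'⟩

/-- The number of classes of associates of absolute norm `n`. -/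
theorem Kr.ncard_SN [IsDomain (QuadraticAlgebra ℤ m B)]
    [UniqueFactorizationMonoid (QuadraticAlgebra ℤ m B)] (hK : Kr m B D ψ)
    (n : ℕ) (hn : n ≠ 0) :
    (SN m B n).Finite ∧ ((SN m B n).ncard : ℤ) = sg ψ n := by
  induction n using Nat.strong_induction_on with
  | _ n IH =>
    rcases eq_or_ne n 1 with rfl | hn1
    · have : SN m B 1 = {1} := by
        ext c
        exact absN_eq_one_iff c
      rw [this, sg_one hK.one]
      simp
    · obtain ⟨p, hp, n', rfl⟩ : ∃ p, p.Prime ∧ ∃ n', n = p * n' := by
        obtain ⟨p, hp, h⟩ := Nat.exists_prime_and_dvd hn1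
        exact ⟨p, hp, h⟩
      have hn' : n' ≠ 0 := by rintro rfl; simp at hn
      have hlt : n' < p * n' := by
        have := hp.one_lt
        nlinarith [Nat.pos_of_ne_zero hn']
      obtain ⟨hfin, hcard⟩ := IH n' hlt hn'
      rw [sg_rec hK.mul hp hn']
      rcases hK.tri p hp with hj | hj | hj
      · -- ramified
        obtain ⟨π, hπ, hπ', hπn⟩ := hK.exists_prime_elem hp (by rw [hj]; norm_num)
        have hdvd := hK.dvd_star_of_ramified hp hj π hπn
        have hass : Associates.mk π ∣ Associates.mk (star π) := Associates.mk_dvd_mk.mpr hdvd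
        have hSN : SN m B (p * n') = (fun c => Associates.mk π * c) '' SN m B n' := by
          rw [image_mul_SN (Associates.mk π) p n' hπn hp.ne_zero]
          ext c
          constructor
          · intro hc
            refine ⟨hc, ?_⟩
            rcases exists_dvd_of_mem hp π hπn hπ c hc with h | h
            · exact h
            · exact hass.trans h
          · exact fun h => h.1
        have hinj := mul_injective_assoc (Associates.mk π) (Associates.mk_ne_zero.mpr hπ.ne_zero)
        rw [hSN, hj]
        refine ⟨hfin.image _, ?_⟩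
        rw [Set.ncard_image_of_injective _ hinj, hcard]
        ring
      · -- split
        obtain ⟨π, hπ, hπ', hπn⟩ := hK.exists_prime_elem hp (by rw [hj]; norm_num)
        have hnd := hK.not_associated_star hp hj π hπn hπ
        have hπn' : absN (Associates.mk (star π)) = p := by
          rw [absN_mk, QuadraticAlgebra.norm_star, hπn]
        have hSN : SN m B (p * n') = (fun c => Associates.mk π * c) '' SN m B n' ∪
            (fun c => Associates.mk (star π) * c) '' SN m B n' := by
          rw [image_mul_SN (Associates.mk π) p n' hπn hp.ne_zero,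
            image_mul_SN (Associates.mk (star π)) p n' hπn' hp.ne_zero]
          ext c
          constructor
          · intro hc
            rcases exists_dvd_of_mem hp π hπn hπ c hc with h | h
            · left; exact ⟨hc, h⟩
            · right; exact ⟨hc, h⟩
          · rintro (h | h)
            · exact h.1
            · exact h.1
        have hinj := mul_injective_assoc (Associates.mk π) (Associates.mk_ne_zero.mpr hπ.ne_zero)
        have hinj' := mul_injective_assoc (Associates.mk (star π)) (Associates.mk_ne_zero.mpr hπ'.ne_zero)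
        have hinter : (fun c => Associates.mk π * c) '' SN m B n' ∩
            (fun c => Associates.mk (star π) * c) '' SN m B n' =
            if p ∣ n' then (fun c => Associates.mk ((p : ℕ) : QuadraticAlgebra ℤ m B) * c) ''
              (SN m B (n' / p)) else ∅ := by
          rw [image_mul_SN (Associates.mk π) p n' hπn hp.ne_zero,
            image_mul_SN (Associates.mk (star π)) p n' hπn' hp.ne_zero]
          have key : ∀ c, c ∈ SN m B (p * n') → Associates.mk π ∣ c → Associates.mk (star π) ∣ c →
              ∃ c', c = Associates.mk ((p : ℕ) : QuadraticAlgebra ℤ m B) * c' ∧ n' = p * absN c' := by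
            intro c hc h1 h2
            obtain ⟨z, rfl⟩ := Associates.mk_surjective c
            rw [Associates.mk_dvd_mk] at h1 h2
            obtain ⟨w, hw⟩ := h1
            rw [hw] at h2
            have h3 : star π ∣ w := by
              rcases hπ'.dvd_or_dvd h2 with h | h
              · exfalso
                apply hnd
                have := (hπ'.irreducible.associated_of_dvd hπ.irreducible h)
                exact this.symm.dvd
              · exact h
            obtain ⟨v, hv⟩ := h3
            have h4 : Associated z (((p : ℕ) : QuadraticAlgebra ℤ m B) * v) := by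
              rw [hw, hv, ← mul_assoc]
              exact (dvd_natCast_of_norm π hπn).mul_right v
            have h5 : Associates.mk z = Associates.mk ((p : ℕ) : QuadraticAlgebra ℤ m B) * Associates.mk v := by
              rw [Associates.mk_mul_mk, Associates.mk_eq_mk_iff_associated]
              exact h4
            refine ⟨Associates.mk v, h5, ?_⟩
            change absN (Associates.mk z) = p * n' at hc
            rw [h5, absN_mul, absN_mk_natCast] at hc
            have h6 : p * n' = p * (p * absN (Associates.mk v)) := by rw [← hc]; ring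
            exact Nat.eq_of_mul_eq_mul_left hp.pos h6
          split_ifs with h
          · obtain ⟨n'', rfl⟩ := h
            rw [Nat.mul_div_cancel_left _ hp.pos]
            ext c
            constructor
            · rintro ⟨⟨hc, h1⟩, ⟨-, h2⟩⟩
              obtain ⟨c', rfl, hc'⟩ := key c hc h1 h2
              exact ⟨c', (Nat.eq_of_mul_eq_mul_left hp.pos hc').symm, rfl⟩
            · rintro ⟨c', hc', rfl⟩
              have hmem : Associates.mk ((p : ℕ) : QuadraticAlgebra ℤ m B) * c' ∈ SN m B (p * (p * n'')) := by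
                change absN _ = _
                rw [absN_mul, absN_mk_natCast, hc']
                ring
              have hmk : Associates.mk ((p : ℕ) : QuadraticAlgebra ℤ m B) =
                  Associates.mk π * Associates.mk (star π) := by
                rw [Associates.mk_mul_mk, Associates.mk_eq_mk_iff_associated]
                exact (dvd_natCast_of_norm π hπn).symm
              refine ⟨⟨hmem, ?_⟩, ⟨hmem, ?_⟩⟩
              · rw [hmk]
                exact (Dvd.intro _ rfl : Associates.mk π ∣ Associates.mk π * Associates.mk (star π)).mul_right c'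
              · rw [hmk]
                exact (Dvd.intro_left _ rfl : Associates.mk (star π) ∣ Associates.mk π * Associates.mk (star π)).mul_right c'
          · rw [Set.eq_empty_iff_forall_notMem]
            rintro c ⟨⟨hc, h1⟩, ⟨-, h2⟩⟩
            obtain ⟨c', -, hc'⟩ := key c hc h1 h2
            exact h ⟨_, hc'⟩
        have hcardinter : (((fun c => Associates.mk π * c) '' SN m B n' ∩
            (fun c => Associates.mk (star π) * c) '' SN m B n').ncard : ℤ) =
            if p ∣ n' then sg ψ (n' / p) else 0 := by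
          rw [hinter]
          split_ifs with h
          · have hmkne : Associates.mk ((p : ℕ) : QuadraticAlgebra ℤ m B) ≠ 0 :=
              Associates.mk_ne_zero.mpr (natCast_ne_zero hp)
            rw [Set.ncard_image_of_injective _ (mul_injective_assoc _ hmkne)]
            obtain ⟨n'', rfl⟩ := h
            rw [Nat.mul_div_cancel_left _ hp.pos]
            have hn'' : n'' ≠ 0 := by rintro rfl; simp at hn'
            exact (IH n'' (by
              have := hp.one_lt
              have := Nat.pos_of_ne_zero hn''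
              nlinarith [Nat.mul_le_mul_left n'' hp.one_lt.le]) hn'').2
          · simp
        have hunion := Set.ncard_union_add_ncard_inter ((fun c => Associates.mk π * c) '' SN m B n')
          ((fun c => Associates.mk (star π) * c) '' SN m B n') (hfin.image _) (hfin.image _)
        rw [Set.ncard_image_of_injective _ hinj, Set.ncard_image_of_injective _ hinj'] at hunion
        refine ⟨?_, ?_⟩
        · rw [hSN]; exact (hfin.image _).union (hfin.image _)
        · rw [← hSN] at hunion
          have hunion' : ((SN m B (p * n')).ncard : ℤ) + (((fun c => Associates.mk π * c) '' SN m B n' ∩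
            (fun c => Associates.mk (star π) * c) '' SN m B n').ncard : ℤ) = (SN m B n').ncard + (SN m B n').ncard := by
            exact_mod_cast hunion
          rw [hcardinter, hcard] at hunion'
          rw [hj]
          linarith
      · -- inert
        rw [hK.SN_inert hp hj, hj]
        split_ifs with h
        · have hmkne : Associates.mk ((p : ℕ) : QuadraticAlgebra ℤ m B) ≠ 0 :=
            Associates.mk_ne_zero.mpr (natCast_ne_zero hp)
          obtain ⟨n'', rfl⟩ := h
          rw [Nat.mul_div_cancel_left _ hp.pos]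
          have hn'' : n'' ≠ 0 := by rintro rfl; simp at hn'
          obtain ⟨hf, hc⟩ := IH n'' (by
              have := hp.one_lt
              have := Nat.pos_of_ne_zero hn''
              nlinarith [Nat.mul_le_mul_left n'' hp.one_lt.le]) hn''
          refine ⟨hf.image _, ?_⟩
          rw [Set.ncard_image_of_injective _ (mul_injective_assoc _ hmkne), hc]
          ring
        · refine ⟨Set.finite_empty, ?_⟩
          simp

end Pool.Agent.Lib_helper5.RDF
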