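import Pool.Agent.Lib_helper5.RDF.Gen
import Pool.Agent.Lib_helper5.RDType

/-!
The families `d = n² ± 2`.
-/

namespace Pool.Agent.Lib_helper5.RDF

open Finset (range)
open Pool.Agent.LibH4 Pool.Agent.LibH4.FA

lemma q_odd_of_coprime {q d : ℕ} (h : Nat.Coprime q (4 * d)) : q % 2 = 1 := by
  have h2 : Nat.Coprime q 4 := Nat.Coprime.coprime_mul_right_right h
  have h3 : Nat.Coprime q 2 := by
    have : (4 : ℕ) = 2 * 2 := rfl
    rw [this] at h2
    exact Nat.Coprime.coprime_mul_right_right h2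
  rw [Nat.coprime_comm, Nat.coprime_two_left] at h3
  exact Nat.odd_iff.1 h3

namespace BL2

/-- the character -/
lemma isKr (n d : ℕ) (hd : d = n ^ 2 + 2) : Kr ((2 : ℕ) : ℤ) ((2 : ℕ) * n) (4 * d) (kr d) :=
  kr_isKr (b := n) (by push_cast; ring) (by rw [hd]; push_cast; ring)

lemma d_mod (n d : ℕ) (hd : d = n ^ 2 + 2) : d % 4 = 2 ∨ d % 4 = 3 := by
  rcases Nat.even_or_odd' n with ⟨k, rfl | rfl⟩
  · left
    have : (2 * k) ^ 2 + 2 = 4 * k ^ 2 + 2 := by ring
    omega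
  · right
    have : (2 * k + 1) ^ 2 + 2 = 4 * (k ^ 2 + k) + 3 := by ring
    omega

lemma P_ne (n : ℕ) : ∀ k < 2, k ≠ 1 → BL.P 2 k ≠ 1 := by
  intro k hk hk1
  interval_cases k
  · simp [BL.P]
  · exact absurd rfl hk1

/-- all relations for `d = n² + 2` -/
theorem all (n : ℕ) (hn : 1 ≤ n)
    [IsDomain (QuadraticAlgebra ℤ ((2 : ℕ) : ℤ) ((2 : ℕ) * n))]
    [UniqueFactorizationMonoid (QuadraticAlgebra ℤ ((2 : ℕ) : ℤ) ((2 : ℕ) * n))] :
    BL.All 2 n (4 * (n ^ 2 + 2)) := by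
  intro q l hq _ hcop hl6 hld χ hodd hmul hsum
  have hq2 := q_odd_of_coprime hcop
  have key := even_T5' ((2 : ℕ) : ℤ) ((2 : ℕ) * n) (by norm_num)
    (BL.cyc 2 n (by norm_num) hn) 1 rfl (by norm_num) (BL.closing 2 n) (P_ne n)
    (isKr n _ rfl) (by positivity) (kr_mod _) q l hq hq2 hcop
    (exists_kr_neg (by positivity) (d_mod n _ rfl) hq2 (Nat.Coprime.coprime_mul_left_right hcop))
    hl6 hld χ hodd hmul hsum
  rw [← key]
  simp only [Finset.sum_range_succ, Finset.sum_range_zero (M := ZMod l), zero_add, BL.P, BL.R,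
    BL.S, BL.c]
  push_cast
  rfl

/-- small primes are inert for `d = n² + 2` -/
theorem inert (n : ℕ) (hn : 1 ≤ n)
    [IsDomain (QuadraticAlgebra ℤ ((2 : ℕ) : ℤ) ((2 : ℕ) * n))]
    [UniqueFactorizationMonoid (QuadraticAlgebra ℤ ((2 : ℕ) : ℤ) ((2 : ℕ) * n))]
    (p : ℕ) (hp : p.Prime) (hp2 : p ≠ 2) (hpw : p ≤ 2 * (n - 1)) :
    jacobiSym ((n ^ 2 + 2 : ℕ) : ℤ) p = -1 := by
  by_contra hj
  obtain ⟨k, hk, x, y, hx, hy, he⟩ := even_inert' ((2 : ℕ) : ℤ) ((2 : ℕ) * n) (by norm_num)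
    (BL.cyc 2 n (by norm_num) hn) 1 rfl (by norm_num) (BL.closing 2 n) (P_ne n)
    (isKr n _ rfl) p hp (by rw [kr_prime hp hp2]; exact hj)
  have hx' : (1 : ℤ) ≤ x := by exact_mod_cast hx
  have hn' : (1 : ℤ) ≤ n := by exact_mod_cast hn
  have hxx : (1 : ℤ) ≤ (x : ℤ) ^ 2 := by nlinarith
  have hn1 : ((n - 1 : ℕ) : ℤ) = n - 1 := by rw [Nat.cast_sub hn]; simp
  have hpw' : (p : ℤ) ≤ 2 * (n - 1) := by
    rw [← hn1]; exact_mod_cast hpw
  rcases Nat.eq_zero_or_pos y with hy0 | hy0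
  · subst hy0
    have he' : BL.P 2 k * (x : ℤ) ^ 2 = p := by rw [← he]; push_cast; ring
    have hP := eq_of_prime_mul_sq hp he'
    interval_cases k <;> simp only [BL.P] at hP
    · apply hp2; exact_mod_cast hP.symm
    · have := hp.two_le
      omega
  · have hy1 : (1 : ℤ) ≤ y := by exact_mod_cast hy0
    have hyc : (y : ℤ) + 1 ≤ BL.c 2 n k * x := by exact_mod_cast hy
    interval_cases k <;> simp only [BL.P, BL.R, BL.S, BL.c] at he hyc
    · push_cast at hyc he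
      have h1 : (2 : ℤ) ≤ 2 * x ^ 2 := by nlinarith
      have h2 : (2 : ℤ) * n * x - 1 ≤ y * (2 * n * x - y) := by nlinarith
      have h3 : (2 : ℤ) * n ≤ 2 * n * x := by nlinarith
      nlinarith
    · push_cast at he
      have h2 : (n : ℤ) * x - 1 ≤ y * (n * x - y) := by nlinarith
      have h3 : (2 : ℤ) * (n * x - 1) ≤ 2 * (y * (n * x - y)) := by nlinarith
      have h4 : (2 : ℤ) * (n * 1 - 1) ≤ 2 * (n * x - 1) := by nlinarith
      nlinarith

end BL2

namespace E2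

/-- the character -/
lemma isKr (n d : ℕ) (hd : d + 2 = n ^ 2) : Kr (E1.w 2 n) ((2 : ℕ) * n - 2) (4 * d) (kr d) :=
  kr_isKr (b := n - 1) (by push_cast; ring) (by
    have h : ((d + 2 : ℕ) : ℤ) = ((n ^ 2 : ℕ) : ℤ) := by rw [hd]
    push_cast at h
    unfold E1.w
    push_cast
    linarith)

lemma d_mod (n d : ℕ) (hd : d + 2 = n ^ 2) : d % 4 = 2 ∨ d % 4 = 3 := by
  rcases Nat.even_or_odd' n with ⟨k, rfl | rfl⟩
  · left
    have : (2 * k) ^ 2 = 4 * k ^ 2 := by ring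
    omega
  · right
    have : (2 * k + 1) ^ 2 = 4 * (k ^ 2 + k) + 1 := by ring
    omega

lemma P_ne (n : ℕ) (hn : 3 ≤ n) : ∀ k < 4, k ≠ 1 → E1.P 2 n k ≠ 1 := by
  have hw := E1.w_pos 2 n (by norm_num) hn
  intro k hk hk1
  interval_cases k
  · simp only [E1.P]; omega
  · exact absurd rfl hk1
  · simp only [E1.P]; omega
  · simp [E1.P]

/-- all relations for `d = n² - 2` -/
theorem all (n d : ℕ) (hn : 3 ≤ n) (hd : d + 2 = n ^ 2)
    [IsDomain (QuadraticAlgebra ℤ (E1.w 2 n) ((2 : ℕ) * n - 2))]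
    [UniqueFactorizationMonoid (QuadraticAlgebra ℤ (E1.w 2 n) ((2 : ℕ) * n - 2))] :
    E1.All 2 n (4 * d) := by
  intro q l hq _ hcop hl6 hld χ hodd hmul hsum
  have hq2 := q_odd_of_coprime hcop
  have hw := E1.w_pos 2 n (by norm_num) hn
  have hd0 : 0 < d := by nlinarith
  have key := even_T5' (E1.w 2 n) ((2 : ℕ) * n - 2) (by omega)
    (E1.cyc 2 n (by norm_num) hn) 2 rfl (by norm_num) (E1.closing 2 n (by norm_num) hn) (P_ne n hn)
    (isKr n _ hd) (by positivity) (kr_mod _) q l hq hq2 hcop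
    (exists_kr_neg hd0 (d_mod n _ hd) hq2 (Nat.Coprime.coprime_mul_left_right hcop))
    hl6 hld χ hodd hmul hsum
  rw [← key]
  simp only [Finset.sum_range_succ, Finset.sum_range_zero (M := ZMod l), zero_add, E1.P, E1.R,
    E1.S, E1.c, E1.w]
  have c0 : ((2 * n - 2 : ℕ) : ZMod l) = ((2 : ℕ) : ZMod l) * n - 2 := by
    have := congrArg (Int.cast : ℤ → ZMod l) (E1.cast_c0 2 n (by norm_num) hn)
    push_cast at this ⊢
    exact this
  have c2 : ((n - 2 : ℕ) : ZMod l) = (n : ZMod l) - 2 := by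
    have := congrArg (Int.cast : ℤ → ZMod l) (E1.cast_c2 n hn)
    push_cast at this
    exact this
  rw [c0, c2]
  push_cast
  rfl

/-- small primes are inert for `d = n² - 2` -/
theorem inert (n d : ℕ) (hn : 3 ≤ n) (hd : d + 2 = n ^ 2)
    [IsDomain (QuadraticAlgebra ℤ (E1.w 2 n) ((2 : ℕ) * n - 2))]
    [UniqueFactorizationMonoid (QuadraticAlgebra ℤ (E1.w 2 n) ((2 : ℕ) * n - 2))]
    (p : ℕ) (hp : p.Prime) (hp2 : p ≠ 2) (hpw : p + 3 < 2 * n) :
    jacobiSym (d : ℤ) p = -1 := by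
  by_contra hj
  have hw := E1.w_pos 2 n (by norm_num) hn
  have hwe : E1.w 2 n = 2 * n - 3 := by unfold E1.w; push_cast; ring
  obtain ⟨k, hk, x, y, hx, hy, he⟩ := even_inert' (E1.w 2 n) ((2 : ℕ) * n - 2) (by omega)
    (E1.cyc 2 n (by norm_num) hn) 2 rfl (by norm_num) (E1.closing 2 n (by norm_num) hn) (P_ne n hn)
    (isKr n _ hd) p hp (by rw [kr_prime hp hp2]; exact hj)
  have hx' : (1 : ℤ) ≤ x := by exact_mod_cast hx
  have hn' : (3 : ℤ) ≤ n := by exact_mod_cast hn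
  have hpw' : (p : ℤ) + 3 < 2 * n := by exact_mod_cast hpw
  have hxx : (1 : ℤ) ≤ (x : ℤ) ^ 2 := by nlinarith
  rcases Nat.eq_zero_or_pos y with hy0 | hy0
  · subst hy0
    have he' : E1.P 2 n k * (x : ℤ) ^ 2 = p := by rw [← he]; push_cast; ring
    have hP := eq_of_prime_mul_sq hp he'
    interval_cases k <;> simp only [E1.P] at hP
    · omega
    · have := hp.two_le
      omega
    · omega
    · apply hp2; exact_mod_cast hP.symm
  · have hy1 : (1 : ℤ) ≤ y := by exact_mod_cast hy0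
    have hyc : (y : ℤ) + 1 ≤ E1.c 2 n k * x := by exact_mod_cast hy
    interval_cases k <;> simp only [E1.P, E1.R, E1.S, E1.c] at he hyc
    · rw [E1.cast_c0 2 n (by norm_num) hn] at hyc
      push_cast at hyc he
      rw [hwe] at he
      have h1 : (2 * (n : ℤ) - 3) ≤ (2 * n - 3) * (x : ℤ) ^ 2 := by nlinarith
      have h2 : 0 ≤ (y : ℤ) * ((2 * n - 2) * x - y) := mul_nonneg (by linarith) (by linarith)
      nlinarith
    · push_cast at hyc he
      rw [hwe] at he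
      have h1 : 0 ≤ (2 * (n : ℤ) - 3) * ((y : ℤ) * (x - y) - 1) := by
        apply mul_nonneg (by linarith)
        nlinarith
      have h2 : (1 : ℤ) * x ^ 2 + (2 * n - 2) * x * y - (2 * n - 3) * y ^ 2
        = (2 * n - 3) * (y * (x - y)) + x ^ 2 + (x * y) := by ring
      have h3 : 0 ≤ ((x : ℤ) * y) := by nlinarith
      linarith
    · rw [E1.cast_c2 n hn] at hyc
      push_cast at he
      rw [hwe] at he
      have h1 : (2 * (n : ℤ) - 3) ≤ (2 * n - 3) * (x : ℤ) ^ 2 := by nlinarith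
      have h2 : 0 ≤ (2 : ℤ) * ((y : ℤ) * ((n - 2) * x - y)) :=
        mul_nonneg (by linarith) (mul_nonneg (by linarith) (by linarith))
      nlinarith
    · push_cast at hyc he
      rw [hwe] at he
      have h1 : 0 ≤ (2 * (n : ℤ) - 3) * ((y : ℤ) * (x - y) - 1) := by
        apply mul_nonneg (by linarith)
        nlinarith
      have h2 : (2 : ℤ) * x ^ 2 + (2 * n - 2 * 2) * x * y - (2 * n - 3) * y ^ 2
        = (2 * n - 3) * (y * (x - y)) + 2 * (x * (x - y)) + x * y := by ring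
      have h3 : 0 ≤ (2 : ℤ) * (x * (x - y)) :=
        mul_nonneg (by linarith) (mul_nonneg (by linarith) (by linarith))
      have h4 : 0 ≤ (x : ℤ) * y := by positivity
      linarith

end E2

end Pool.Agent.Lib_helper5.RDF
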