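import Pool.Agent.Lib_helper5.RDF.EvenRed

/-!
The even discriminants of extended Richaud–Degert type, from the two eliminations.
-/

namespace Pool.Agent.Lib_helper5.RDF

open Finset (range)
open Pool.Agent.LibH4 Pool.Agent.LibH4.FA
open scoped NumberField

/-- what remains to be shown for `d = n² + 2` -/
def NoLargeBL2 : Prop := ∀ n : ℕ, 20 ≤ n →
  (∀ p : ℕ, p.Prime → p ≠ 2 → p ≤ 37 → jacobiSym ((n ^ 2 + 2 : ℕ) : ℤ) p = -1) →
  BL.All 2 n (4 * (n ^ 2 + 2)) → False

/-- what remains to be shown for `d = n² - 2` -/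
def NoLargeE2 : Prop := ∀ n d : ℕ, 21 ≤ n → d + 2 = n ^ 2 →
  (∀ p : ℕ, p.Prime → p ≠ 2 → p ≤ 37 → jacobiSym (d : ℤ) p = -1) →
  E1.All 2 n (4 * d) → False

lemma BL2.small_arith (n : ℕ) (hn : 1 ≤ n) (hn20 : n < 20) (hsq : Squarefree (n ^ 2 + 2))
    (hin : ∀ p : ℕ, p.Prime → p ≠ 2 → p ≤ 2 * (n - 1) →
      jacobiSym ((n ^ 2 + 2 : ℕ) : ℤ) p = -1) :
    n ^ 2 + 2 ∈ listE := by
  have h3 := hin 3 (by norm_num) (by norm_num)
  have h5 := hin 5 (by norm_num) (by norm_num)
  have h9 : ¬ (9 ∣ n ^ 2 + 2) := by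
    intro h
    have := hsq 3 (by simpa using h)
    rw [Nat.isUnit_iff] at this
    omega
  clear hin hsq
  interval_cases n <;> first
    | decide
    | (exfalso; exact h9 (by decide))
    | (exfalso; have := h3 (by decide); norm_num at this; done)
    | (exfalso; have := h5 (by decide); norm_num at this; done)

lemma E2.small_arith (n d : ℕ) (hn : 2 ≤ n) (hn20 : n < 21) (hd : d + 2 = n ^ 2)
    (hsq : Squarefree d)
    (hin : ∀ p : ℕ, p.Prime → p ≠ 2 → p + 3 < 2 * n → jacobiSym (d : ℤ) p = -1) :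
    d ∈ listE := by
  have h3 := hin 3 (by norm_num) (by norm_num)
  have h5 := hin 5 (by norm_num) (by norm_num)
  have h7 := hin 7 (by norm_num) (by norm_num)
  have h49 : ¬ (49 ∣ d) := by
    intro h
    have := hsq 7 (by simpa using h)
    rw [Nat.isUnit_iff] at this
    omega
  have hd' : d = n ^ 2 - 2 := by omega
  clear hin hsq hd
  subst hd'
  interval_cases n <;> first
    | decide
    | (exfalso; exact h49 (by decide))
    | (exfalso; have := h3 (by decide); norm_num at this; done)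
    | (exfalso; have := h5 (by decide); norm_num at this; done)
    | (exfalso; have := h7 (by decide); norm_num at this; done)

/-- class number one for `d = n² + 2` -/
theorem BL2.mem_list (H : NoLargeBL2) (n d : ℕ) (hn : 1 ≤ n) (hd : d = n ^ 2 + 2)
    (hsq : Squarefree d) (hU : UniqueFactorizationMonoid (𝓞 (KQ d))) : d ∈ listE := by
  have h4 := BL2.d_mod n d hd
  have h1 : 1 < d := by rw [hd]; have := Nat.zero_le (n ^ 2); omega
  obtain ⟨i1, i2⟩ := ufm_order_even (m := ((2 : ℕ) : ℤ)) (B := (2 : ℕ) * n) hsq h1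
    (by rw [hd]; push_cast; ring) (by omega) (by push_cast; omega) hU
  have hin := fun (p : ℕ) (hp : p.Prime) (hp2 : p ≠ 2) hpw => BL2.inert n hn p hp hp2 hpw
  rcases Nat.lt_or_ge n 20 with hs | hs
  · rw [hd] at hsq ⊢
    exact BL2.small_arith n hn hs hsq hin
  · exfalso
    exact H n hs (fun p hp hp2 hp37 => hin p hp hp2 (by omega)) (BL2.all n hn)

/-- class number one for `d = n² - 2` -/
theorem E2.mem_list (H : NoLargeE2) (n d : ℕ) (hn : 2 ≤ n) (hd : d + 2 = n ^ 2)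
    (hsq : Squarefree d) (hU : UniqueFactorizationMonoid (𝓞 (KQ d))) : d ∈ listE := by
  rcases Nat.lt_or_ge n 3 with hn3 | hn3
  · have hn2 : n = 2 := by omega
    subst hn2
    have : d = 2 := by omega
    subst this
    decide
  have h4 := E2.d_mod n d hd
  have h1 : 1 < d := by nlinarith
  have hdZ : (d : ℤ) + 2 = (n : ℤ) ^ 2 := by exact_mod_cast hd
  obtain ⟨i1, i2⟩ := ufm_order_even (m := E1.w 2 n) (B := (2 : ℕ) * n - 2) hsq h1
    (by unfold E1.w; push_cast; linear_combination 4 * hdZ) (by omega)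
    (by push_cast; omega) hU
  have hin := fun (p : ℕ) (hp : p.Prime) (hp2 : p ≠ 2) hpw => E2.inert n d hn3 hd p hp hp2 hpw
  rcases Nat.lt_or_ge n 21 with hs | hs
  · exact E2.small_arith n d hn hs hd hsq hin
  · exfalso
    exact H n d hs hd (fun p hp hp2 hp37 => hin p hp hp2 (by omega)) (E2.all n d hn3 hd)

/-- **the even discriminants of extended Richaud–Degert type** -/
theorem even_two (H1 : NoLargeBL2) (H2 : NoLargeE2) {d m : ℕ} {r : ℤ}
    (hd4 : d % 4 = 2 ∨ d % 4 = 3) (hsq : Squarefree d) (hm : 1 ≤ m) (hr0 : r ≠ 0)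
    (hr : r ∣ 4 * m) (hd : (d : ℤ) = (m : ℤ) ^ 2 + r)
    (hU : UniqueFactorizationMonoid (𝓞 (KQ d))) : d ∈ listE := by
  have h1 : 1 < d := by omega
  rcases red hd4 hm hr0 hr hd (exists_norm_two hsq h1 (by omega) hU) with
    ⟨n, hn, hdn⟩ | ⟨n, hn, hdn⟩
  · exact BL2.mem_list H1 n d hn hdn hsq hU
  · exact E2.mem_list H2 n d hn hdn hsq hU

/-- the even case as an equivalence -/
theorem even_iff (H1 : NoLargeBL2) (H2 : NoLargeE2) {d m : ℕ} {r : ℤ}
    (hd4 : d % 4 = 2 ∨ d % 4 = 3) (hsq : Squarefree d) (hm : 1 ≤ m) (hr0 : r ≠ 0)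
    (hr : r ∣ 4 * m) (hd : (d : ℤ) = (m : ℤ) ^ 2 + r) :
    UniqueFactorizationMonoid (𝓞 (KQ d)) ↔ d ∈ listE :=
  ⟨fun hU => even_two H1 H2 hd4 hsq hm hr0 hr hd hU, fun h => ufd_listE hsq h⟩

end Pool.Agent.Lib_helper5.RDF
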