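import Pool.Agent.Lib_helper5.RDF.EvenMain
import Pool.Agent.RDF.Stmts

/-!
The even part of the Richaud–Degert list, from the two eliminations.
-/

namespace Pool.Agent.Lib_helper5.RDF

open Finset (range)
open Pool.Agent.LibH4 Pool.Agent.LibH4.FA Pool.Agent.RDF
open scoped NumberField

lemma jacobi_four {d p : ℕ} (hp : p.Prime) (hp2 : p ≠ 2) :
    jacobiSym (((4 * d : ℕ) : ℤ)) p = jacobiSym d p := by
  push_cast
  rw [jacobiSym.mul_left]
  have h5 : jacobiSym (4 : ℤ) p = 1 := by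
    have h6 : (4 : ℤ) = 2 * 2 := by norm_num
    rw [h6, jacobiSym.mul_left, ← sq]
    apply jacobiSym.sq_one
    have := (Nat.coprime_primes Nat.prime_two hp).2 (Ne.symm hp2)
    simpa [Int.gcd] using this
  rw [h5, one_mul]

lemma noLargeBL2_of (H : StmtElimPlus) : NoLargeBL2 := by
  intro n _ hin hall
  refine H n (4 * (n ^ 2 + 2)) (by ring) ?_ hall
  intro p hp hp2 hp37
  rw [jacobi_four hp hp2]
  exact hin p hp hp2 hp37

lemma noLargeE2_of (H : StmtElimMinus) : NoLargeE2 := by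
  intro n d _ hd hin hall
  refine H n (4 * d) ?_ ?_ hall
  · have e : (2 * n) ^ 2 = 4 * n ^ 2 := by ring
    rw [e, ← hd]
    ring
  · intro p hp hp2 hp37
    rw [jacobi_four hp hp2]
    exact hin p hp hp2 hp37

/-- **the even part** -/
theorem even_part (H1 : StmtElimPlus) (H2 : StmtElimMinus) (d m : ℕ) (r : ℤ) (hm : 1 ≤ m)
    (hr : r ∣ 4 * m) (hd : (d : ℤ) = (m : ℤ) ^ 2 + r) (hsq : Squarefree d) (h4 : d % 4 ≠ 1)
    (hU : UniqueFactorizationMonoid (𝓞 (KQ d))) :
    d ∈ [2, 3, 6, 7, 11, 14, 23, 38, 47, 62, 83, 167, 227, 398] := by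
  have hr0 : r ≠ 0 := by
    rintro rfl
    rw [zero_dvd_iff] at hr
    omega
  have hd4 : d % 4 = 2 ∨ d % 4 = 3 := by
    have h0 : d % 4 ≠ 0 := by
      intro h0
      have := hsq 2 (Nat.dvd_of_mod_eq_zero h0)
      rw [Nat.isUnit_iff] at this
      omega
    omega
  exact even_two (noLargeBL2_of H1) (noLargeE2_of H2) hd4 hsq hm hr0 hr hd hU

/-- the fourteen even and twenty-nine odd discriminants have class number one -/
theorem ufd_all {d : ℕ} (hsq : Squarefree d)
    (h : d ∈ [2, 3, 6, 7, 11, 14, 23, 38, 47, 62, 83, 167, 227, 398, 5, 13, 17, 21, 29, 33, 37, 53,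
      69, 77, 93, 101, 141, 173, 197, 213, 237, 293, 413, 437, 453, 573, 677, 717, 1077, 1133,
      1253, 1293, 1757]) :
    UniqueFactorizationMonoid (𝓞 (KQ d)) :=
  ufd_list hsq (by simpa only [listE, listO, List.cons_append, List.nil_append] using h)

end Pool.Agent.Lib_helper5.RDF
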