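import Pool.Agent.Lib_helper5.RDF.EvenFam
import Pool.Agent.Lib_helper4.CFPeriod
import Pool.Agent.Lib_helper5.RDF.Fields

/-!
Reduction of the even discriminants of extended Richaud–Degert type to `d = n² ± 2`.
-/

namespace Pool.Agent.Lib_helper5.RDF

open Finset (range)
open Pool.Agent.LibH4 Pool.Agent.LibH4.FA
open scoped NumberField

/-- a small solution of `x² - d y² = ±2` -/
lemma descent {d u v : ℤ} (hd : 0 < d) (hu : 1 ≤ u) (hv : 1 ≤ v) (huv : u ^ 2 = d * v ^ 2 + 1)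
    (h : ∃ x y : ℤ, x ^ 2 - d * y ^ 2 = 2 ∨ x ^ 2 - d * y ^ 2 = -2) :
    ∃ x y : ℤ, 0 ≤ x ∧ 1 ≤ y ∧ ((x ^ 2 - d * y ^ 2 = 2 ∧ d * y ^ 2 ≤ u - 1) ∨
      (x ^ 2 - d * y ^ 2 = -2 ∧ d * y ^ 2 ≤ u + 1)) := by
  classical
  have hex : ∃ k : ℕ, ∃ x y : ℤ, y.natAbs = k ∧ (x ^ 2 - d * y ^ 2 = 2 ∨ x ^ 2 - d * y ^ 2 = -2) := by
    obtain ⟨x, y, hxy⟩ := h
    exact ⟨_, x, y, rfl, hxy⟩
  obtain ⟨x, y, hk, hxy⟩ := Nat.find_spec hex
  have hmin := fun {k : ℕ} => Nat.find_min hex (m := k)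
  have hmin' : ∀ x' y' : ℤ, (x' ^ 2 - d * y' ^ 2 = 2 ∨ x' ^ 2 - d * y' ^ 2 = -2) → |y| ≤ |y'| := by
    intro x' y' h'
    by_contra hcon
    push Not at hcon
    refine hmin (k := y'.natAbs) ?_ ⟨x', y', rfl, h'⟩
    rw [← hk]
    rw [Int.abs_eq_natAbs, Int.abs_eq_natAbs] at hcon
    exact_mod_cast hcon
  -- pass to absolute values
  set X : ℤ := |x| with hX
  set Y : ℤ := |y| with hY
  have hX2 : X ^ 2 = x ^ 2 := sq_abs x
  have hY2 : Y ^ 2 = y ^ 2 := sq_abs y
  have hX0 : 0 ≤ X := abs_nonneg x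
  have hY0 : 0 ≤ Y := abs_nonneg y
  rw [← hX2, ← hY2] at hxy
  have hY1 : 1 ≤ Y := by
    by_contra hcon
    have hYz : Y = 0 := by omega
    rw [hYz] at hxy
    have h1 : X ^ 2 = 2 ∨ X ^ 2 = -2 := by
      rcases hxy with h | h
      · left; linarith
      · right; linarith
    rcases h1 with h1 | h1
    · have : X < 2 := by nlinarith
      interval_cases X <;> norm_num at h1
    · nlinarith
  refine ⟨X, Y, hX0, hY1, ?_⟩
  have hu2 : 2 ≤ u := by nlinarith
  have hnew := hmin' (X * u - d * Y * v) (Y * u - X * v) (by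
    have e : (X * u - d * Y * v) ^ 2 - d * (Y * u - X * v) ^ 2
        = (X ^ 2 - d * Y ^ 2) * (u ^ 2 - d * v ^ 2) := by ring
    have e2 : u ^ 2 - d * v ^ 2 = 1 := by rw [huv]; ring
    rw [e, e2, mul_one]
    exact hxy)
  have hfac : d * v ^ 2 = (u - 1) * (u + 1) := by linear_combination -huv
  rcases le_or_gt 0 (Y * u - X * v) with hs | hs
  · rw [abs_of_nonneg hs] at hnew
    have h1 : X * v ≤ Y * (u - 1) := by linarith
    have h2 : (X * v) ^ 2 ≤ (Y * (u - 1)) ^ 2 :=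
      pow_le_pow_left₀ (mul_nonneg hX0 (by linarith)) h1 2
    rcases hxy with h3 | h3
    · exfalso
      have e : (X * v) ^ 2 = Y ^ 2 * ((u - 1) * (u + 1)) + 2 * v ^ 2 := by
        rw [← hfac]; linear_combination v ^ 2 * h3
      have e2 : (Y * (u - 1)) ^ 2 = Y ^ 2 * ((u - 1) * (u + 1)) - 2 * (Y ^ 2 * (u - 1)) := by ring
      have h4 : 0 ≤ Y ^ 2 * (u - 1) := by positivity
      have h5 : 0 < v ^ 2 := by positivity
      nlinarith
    · right
      refine ⟨h3, ?_⟩
      have e : (X * v) ^ 2 = Y ^ 2 * ((u - 1) * (u + 1)) - 2 * v ^ 2 := by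
        rw [← hfac]; linear_combination v ^ 2 * h3
      have e2 : (Y * (u - 1)) ^ 2 = Y ^ 2 * ((u - 1) * (u + 1)) - 2 * (Y ^ 2 * (u - 1)) := by ring
      have h4 : Y ^ 2 * (u - 1) ≤ v ^ 2 := by nlinarith
      have h5 : (u - 1) * (d * Y ^ 2) ≤ (u - 1) * (u + 1) := by
        rw [← hfac]
        have := mul_le_mul_of_nonneg_left h4 hd.le
        linarith
      exact le_of_mul_le_mul_left h5 (by linarith)
  · rw [abs_of_neg hs] at hnew
    have h1 : Y * (u + 1) ≤ X * v := by linarith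
    have h2 : (Y * (u + 1)) ^ 2 ≤ (X * v) ^ 2 :=
      pow_le_pow_left₀ (mul_nonneg hY0 (by linarith)) h1 2
    rcases hxy with h3 | h3
    · left
      refine ⟨h3, ?_⟩
      have e : (X * v) ^ 2 = Y ^ 2 * ((u - 1) * (u + 1)) + 2 * v ^ 2 := by
        rw [← hfac]; linear_combination v ^ 2 * h3
      have e2 : (Y * (u + 1)) ^ 2 = Y ^ 2 * ((u - 1) * (u + 1)) + 2 * (Y ^ 2 * (u + 1)) := by ring
      have h4 : Y ^ 2 * (u + 1) ≤ v ^ 2 := by nlinarith
      have h5 : (u + 1) * (d * Y ^ 2) ≤ (u + 1) * (u - 1) := by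
        have := mul_le_mul_of_nonneg_left h4 hd.le
        linarith
      exact le_of_mul_le_mul_left h5 (by linarith)
    · exfalso
      have e : (X * v) ^ 2 = Y ^ 2 * ((u - 1) * (u + 1)) - 2 * v ^ 2 := by
        rw [← hfac]; linear_combination v ^ 2 * h3
      have e2 : (Y * (u + 1)) ^ 2 = Y ^ 2 * ((u - 1) * (u + 1)) + 2 * (Y ^ 2 * (u + 1)) := by ring
      have h4 : 0 ≤ Y ^ 2 * (u + 1) := by positivity
      have h5 : 0 < v ^ 2 := by positivity
      nlinarith

/-- positive `r` -/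
lemma red_pos {d m r : ℤ} (hm : 1 ≤ m) (hr : 1 ≤ r) (hrm : r ∣ 2 * m) (hd : d = m ^ 2 + r)
    (h : ∃ x y : ℤ, x ^ 2 - d * y ^ 2 = 2 ∨ x ^ 2 - d * y ^ 2 = -2) :
    d = m ^ 2 + 2 ∨ d = 2 := by
  obtain ⟨v, hv⟩ := hrm
  have hv1 : 1 ≤ v := by
    by_contra hcon
    have : v ≤ 0 := by omega
    nlinarith
  have hd1 : 0 < d := by nlinarith
  obtain ⟨x, y, hx, hy, hxy⟩ := descent (d := d) (u := m * v + 1) (v := v) hd1 (by nlinarith) hv1
    (by rw [hd]; linear_combination v * hv) h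
  have hyy : 1 ≤ y ^ 2 := by nlinarith
  have e1 : r * (m * v) = 2 * m ^ 2 := by linear_combination -m * hv
  rcases hxy with ⟨h1, h2⟩ | ⟨h1, h2⟩
  · -- `r d y² ≤ 2 m²`
    have h3 : r * (d * y ^ 2) ≤ 2 * m ^ 2 := by
      rw [← e1]; exact mul_le_mul_of_nonneg_left (by linarith) (by linarith)
    have h4 : r * d ≤ r * (d * y ^ 2) := by
      apply mul_le_mul_of_nonneg_left _ (by linarith)
      nlinarith
    have h5 : r = 1 := by
      by_contra hcon
      have : 2 ≤ r := by omega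
      rw [hd] at h4
      nlinarith
    subst h5
    right
    have hy1 : y = 1 := by
      by_contra hcon
      have hy2 : 2 ≤ y := by omega
      have : 4 ≤ y ^ 2 := by nlinarith
      nlinarith
    subst hy1
    have h6 : x ^ 2 = m ^ 2 + 3 := by rw [hd] at h1; linarith
    have h7 : m + 1 ≤ x := by
      by_contra hcon
      push Not at hcon
      nlinarith
    have h8 : m = 1 := by nlinarith
    rw [hd, h8]
    norm_num
  · -- `r d y² ≤ 2 d`
    have h3 : r * (d * y ^ 2) ≤ 2 * d := by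
      have : r * (d * y ^ 2) ≤ r * (m * v + 1 + 1) := mul_le_mul_of_nonneg_left h2 (by linarith)
      have e2 : r * (m * v + 1 + 1) = 2 * d := by rw [hd]; linear_combination e1
      linarith
    have h4 : r * y ^ 2 ≤ 2 := by
      have : d * (r * y ^ 2) ≤ d * 2 := by linarith
      exact le_of_mul_le_mul_left this hd1
    have hr2 : r ≤ 2 := by nlinarith
    have hcase : r = 1 ∨ r = 2 := by omega
    rcases hcase with hr1 | hr1
    · right
      subst hr1
      have hy1 : y = 1 := by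
        by_contra hcon
        have hy2 : 2 ≤ y := by omega
        nlinarith
      subst hy1
      have h6 : x ^ 2 = m ^ 2 - 1 := by rw [hd] at h1; linarith
      have h7 : x ≤ m - 1 := by
        by_contra hcon
        push Not at hcon
        nlinarith
      have h8 : m = 1 := by nlinarith
      rw [hd, h8]
      norm_num
    · left
      rw [hd, hr1]

/-- negative `r` -/
lemma red_neg {d m s : ℤ} (hm : 1 ≤ m) (hs : 1 ≤ s) (hsm : s ∣ 2 * m) (hs4 : ¬ 4 ∣ s)
    (hd : d = m ^ 2 - s) (hd1 : 2 ≤ d)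
    (h : ∃ x y : ℤ, x ^ 2 - d * y ^ 2 = 2 ∨ x ^ 2 - d * y ^ 2 = -2) :
    d = m ^ 2 - 2 ∨ d = 3 ∨ d = 6 := by
  obtain ⟨v, hv⟩ := hsm
  have hv1 : 1 ≤ v := by
    by_contra hcon
    have : v ≤ 0 := by omega
    nlinarith
  have hm2 : 2 ≤ m := by
    by_contra hcon
    have : m = 1 := by omega
    rw [this] at hd
    linarith
  have hmv : 2 ≤ m * v := by nlinarith
  obtain ⟨x, y, hx, hy, hxy⟩ := descent (d := d) (u := m * v - 1) (v := v) (by linarith)
    (by linarith) hv1 (by rw [hd]; linear_combination -v * hv) h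
  have hyy : 1 ≤ y ^ 2 := by nlinarith
  have e1 : s * (m * v) = 2 * m ^ 2 := by linear_combination -m * hv
  rcases hxy with ⟨h1, h2⟩ | ⟨h1, h2⟩
  · have h3 : s * (d * y ^ 2) ≤ 2 * d := by
      have : s * (d * y ^ 2) ≤ s * (m * v - 1 - 1) := mul_le_mul_of_nonneg_left h2 (by linarith)
      have e2 : s * (m * v - 1 - 1) = 2 * d := by rw [hd]; linear_combination e1
      linarith
    have h4 : s * y ^ 2 ≤ 2 := by
      have : d * (s * y ^ 2) ≤ d * 2 := by linarith
      exact le_of_mul_le_mul_left this (by linarith)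
    have hs2 : s ≤ 2 := by nlinarith
    have hcase : s = 1 ∨ s = 2 := by omega
    rcases hcase with hs1 | hs1
    · exfalso
      subst hs1
      have hy1 : y = 1 := by
        by_contra hcon
        have hy2 : 2 ≤ y := by omega
        nlinarith
      subst hy1
      have h6 : x ^ 2 = m ^ 2 + 1 := by rw [hd] at h1; linarith
      have h7 : m + 1 ≤ x := by
        by_contra hcon
        push Not at hcon
        nlinarith
      nlinarith
    · left
      rw [hd, hs1]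
  · have h3 : s * (d * y ^ 2) ≤ 2 * m ^ 2 := by
      have : s * (d * y ^ 2) ≤ s * (m * v - 1 + 1) := mul_le_mul_of_nonneg_left h2 (by linarith)
      have e2 : s * (m * v - 1 + 1) = 2 * m ^ 2 := by linear_combination e1
      linarith
    have h4 : s * d ≤ 2 * m ^ 2 := by
      have : s * d ≤ s * (d * y ^ 2) := by
        apply mul_le_mul_of_nonneg_left _ (by linarith)
        nlinarith
      linarith
    have hs2m : s ≤ 2 * m := by nlinarith
    have hs6 : s ≤ 6 := by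
      by_contra hcon
      push Not at hcon
      rw [hd] at h4
      -- `m² (s-2) ≤ s² ≤ 4 m²`
      have h5 : s ^ 2 ≤ 4 * m ^ 2 := by nlinarith
      have h6 : m ^ 2 * (s - 2) ≤ s ^ 2 := by nlinarith
      have h7 : m ^ 2 * 5 ≤ m ^ 2 * (s - 2) := mul_le_mul_of_nonneg_left (by linarith) (sq_nonneg m)
      nlinarith
    interval_cases s
    · -- `s = 1`
      right; left
      have hy1 : y = 1 := by
        by_contra hcon
        have hy2 : 2 ≤ y := by omega
        have : 4 ≤ y ^ 2 := by nlinarith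
        rw [hd] at h3
        nlinarith
      subst hy1
      have h6 : x ^ 2 = m ^ 2 - 3 := by rw [hd] at h1; linarith
      have h7 : x ≤ m - 1 := by
        by_contra hcon
        push Not at hcon
        nlinarith
      have h8 : m = 2 := by nlinarith
      rw [hd, h8]
      norm_num
    · left; exact hd
    · -- `s = 3`
      rw [hd] at h4
      have h5 : m ^ 2 ≤ 9 := by linarith
      have h6 : m ≤ 3 := by nlinarith
      have h7 : m = 3 := by omega
      right; right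
      rw [hd, h7]; norm_num
    · exact absurd (by norm_num) hs4
    · rw [hd] at h4
      have h5 : m ^ 2 ≤ 8 := by nlinarith
      have h6 : m ≤ 2 := by nlinarith
      omega
    · rw [hd] at h4
      have h5 : m ^ 2 ≤ 9 := by linarith
      have h6 : m ≤ 3 := by nlinarith
      have h7 : m = 3 := by omega
      right; left
      rw [hd, h7]; norm_num

/-- **reduction** to `n² ± 2` -/
theorem red {d m : ℕ} {r : ℤ} (hd4 : d % 4 = 2 ∨ d % 4 = 3) (hm : 1 ≤ m) (hr0 : r ≠ 0)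
    (hr : r ∣ 4 * m) (hd : (d : ℤ) = (m : ℤ) ^ 2 + r)
    (h : ∃ x y : ℤ, x ^ 2 - (d : ℤ) * y ^ 2 = 2 ∨ x ^ 2 - (d : ℤ) * y ^ 2 = -2) :
    (∃ n : ℕ, 1 ≤ n ∧ d = n ^ 2 + 2) ∨ (∃ n : ℕ, 2 ≤ n ∧ d + 2 = n ^ 2) := by
  have hm' : (1 : ℤ) ≤ m := by exact_mod_cast hm
  have h4r : ¬ (4 : ℤ) ∣ r := by
    rintro ⟨t, ht⟩
    rcases Nat.even_or_odd' m with ⟨k, hk | hk⟩
    · have : (d : ℤ) = 4 * ((k : ℤ) ^ 2 + t) := by rw [hd, ht, hk]; push_cast; ring
      omega
    · have : (d : ℤ) = 4 * ((k : ℤ) ^ 2 + k + t) + 1 := by rw [hd, ht, hk]; push_cast; ring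
      omega
  have hrm : r ∣ 2 * m := by
    obtain ⟨t, ht⟩ := hr
    rcases Int.emod_two_eq_zero_or_one t with h0 | h0
    · obtain ⟨t', ht'⟩ : ∃ t', t = 2 * t' := ⟨t / 2, by omega⟩
      refine ⟨t', ?_⟩
      rw [ht'] at ht
      linarith
    · exfalso
      apply h4r
      have h1 : IsCoprime (4 : ℤ) t := by
        obtain ⟨k, hk⟩ : ∃ k, t = 2 * k + 1 := ⟨t / 2, by omega⟩
        have h2 : IsCoprime (2 : ℤ) t := ⟨-k, 1, by rw [hk]; ring⟩
        have : (4 : ℤ) = 2 * 2 := by norm_num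
        rw [this]
        exact h2.mul_left h2
      exact h1.dvd_of_dvd_mul_right ⟨m, ht.symm⟩
  have key : (d : ℤ) = (m : ℤ) ^ 2 + 2 ∨ (d : ℤ) = (m : ℤ) ^ 2 - 2 ∨ (d : ℤ) = 2 ∨ (d : ℤ) = 3 ∨
      (d : ℤ) = 6 := by
    rcases lt_or_gt_of_ne hr0 with hneg | hpos
    · have := red_neg (d := (d : ℤ)) (m := m) (s := -r) hm' (by omega) ((neg_dvd).2 hrm)
        (by rwa [dvd_neg]) (by rw [hd]; ring) (by omega) h
      tauto
    · have := red_pos (d := (d : ℤ)) (m := m) (r := r) hm' (by omega) hrm hd h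
      tauto
  rcases key with h1 | h1 | h1 | h1 | h1
  · left
    exact ⟨m, hm, by exact_mod_cast h1⟩
  · right
    refine ⟨m, ?_, ?_⟩
    · by_contra hcon
      have : m = 1 := by omega
      rw [this] at h1
      norm_num at h1
      omega
    · have : ((d + 2 : ℕ) : ℤ) = ((m ^ 2 : ℕ) : ℤ) := by push_cast; linarith
      exact_mod_cast this
  · right
    refine ⟨2, le_rfl, ?_⟩
    have : d = 2 := by exact_mod_cast h1
    rw [this]; norm_num
  · left
    refine ⟨1, le_rfl, ?_⟩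
    have : d = 3 := by exact_mod_cast h1
    rw [this]; norm_num
  · left
    refine ⟨2, by norm_num, ?_⟩
    have : d = 6 := by exact_mod_cast h1
    rw [this]; norm_num

/-- unique factorisation transfers to the orders of even discriminant -/
lemma ufm_order_even {d : ℕ} {m B : ℤ} (hsq : Squarefree d) (h1 : 1 < d)
    (hd : 4 * (d : ℤ) = B ^ 2 + 4 * m) (h4 : d % 4 ≠ 1) (hB : B % 2 = 0)
    (hU : UniqueFactorizationMonoid (𝓞 (KQ d))) :
    IsDomain (QuadraticAlgebra ℤ m B) ∧ UniqueFactorizationMonoid (QuadraticAlgebra ℤ m B) := by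
  obtain ⟨e⟩ := exists_equiv_QI_even hd h4 hB
  have e' := e.symm.trans (eqvO hsq h1)
  exact ⟨e'.toMulEquiv.isDomain, e'.symm.toMulEquiv.uniqueFactorizationMonoid hU⟩

/-- the prime `2` is the norm of an element up to sign -/
lemma exists_norm_two {d : ℕ} (hsq : Squarefree d) (h1 : 1 < d) (h4 : d % 4 ≠ 1)
    (hU : UniqueFactorizationMonoid (𝓞 (KQ d))) :
    ∃ x y : ℤ, x ^ 2 - (d : ℤ) * y ^ 2 = 2 ∨ x ^ 2 - (d : ℤ) * y ^ 2 = -2 := by
  obtain ⟨i1, i2⟩ := ufm_order_even (m := (d : ℤ)) (B := 0) hsq h1 (by ring) h4 rfl hU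
  have hK : Kr (d : ℤ) 0 (4 * d) (kr d) := kr_isKr (b := 0) (by ring) (by ring)
  obtain ⟨π, _, _, hπ⟩ := hK.exists_prime_elem Nat.prime_two (by
    rw [kr_even rfl]; norm_num)
  refine ⟨π.re, π.im, ?_⟩
  have h2 : π.norm = π.re ^ 2 - (d : ℤ) * π.im ^ 2 := by
    rw [QuadraticAlgebra.norm_def]; ring
  rw [← h2]
  omega

end Pool.Agent.Lib_helper5.RDF
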