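import Pool.Agent.Lib_helper5.RDF.Char

/-!
The identity and the congruence for a general discriminant and its character.
-/

namespace Pool.Agent.Lib_helper5.RDF

open Finset (range)
open Pool.Agent.LibH4 Pool.Agent.LibH4.FA

/-- integer version of the right side -/
def RZ' (ψ : ℕ → ℤ) (q D : ℕ) (f : ℤ → ℤ) : ℤ :=
  ∑ r ∈ range q, ∑ s ∈ range (q * D), (f ((r : ℤ) * s) * ψ s) *
    (bZ q r * bZ (q * D) s)

lemma bb_RZ' (ψ : ℕ → ℤ) {q D : ℕ} (hq : 0 < q) (hd : 0 < D) (f : ℤ → ℤ) :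
    4 * (q : ℝ) ^ 2 * D * bb q (q * D) (gs (fun x => (f x : ℝ)) (fun l => (ψ l : ℝ)))
      = (RZ' ψ q D f : ℝ) := by
  unfold bb RZ' gs
  push_cast
  rw [Finset.mul_sum]
  apply Finset.sum_congr rfl
  intro r _
  rw [Finset.mul_sum]
  apply Finset.sum_congr rfl
  intro s _
  rw [← bet_eq_bZ hq, ← bet_eq_bZ (Nat.mul_pos hq hd)]
  push_cast
  ring

lemma row_zero' {q D : ℕ} {ψ : ℕ → ℤ} {f : ℤ → ℝ} (hq : 0 < q) (hD0 : 0 < D)
    (hψ : ∀ n, ψ (n % D) = ψ n) (hmul : ∀ a b, ψ (a * b) = ψ a * ψ b)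
    (hN : ∃ N : ℕ, N ≡ 1 [MOD q] ∧ Nat.Coprime N (q * D) ∧ ψ N = -1)
    (hper : ∀ x, f (x + q) = f x) (k : ℕ) :
    ∑ l ∈ range (q * D), gs f (fun l => (ψ l : ℝ)) k l = 0 := by
  obtain ⟨n, hn1, hnQ, hn2⟩ := hN
  have h1 := sum_mul_perm (q * D) n (Nat.mul_pos hq hD0) hnQ
    (fun l => gs f (fun l => (ψ l : ℝ)) k l)
  have h2 : ∑ l ∈ range (q * D), gs f (fun l => (ψ l : ℝ)) k ((n * l) % (q * D))
      = - ∑ l ∈ range (q * D), gs f (fun l => (ψ l : ℝ)) k l := by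
    rw [← Finset.sum_neg_distrib]
    apply Finset.sum_congr rfl
    intro l _
    unfold gs
    rw [neg_mul_eq_mul_neg]
    congr 1
    · apply per_congr hper
      obtain ⟨u, hu⟩ := mod_cast_eq (q * D) (n * l)
      obtain ⟨c, hc⟩ : ∃ c : ℤ, (n : ℤ) = 1 + c * q := by
        have := (Nat.modEq_iff_dvd.1 hn1.symm)
        obtain ⟨c, hc⟩ := this
        exact ⟨c, by push_cast at hc; linarith⟩
      refine ⟨k * (c * l) + k * (u * D), ?_⟩
      rw [hu]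
      push_cast
      rw [hc]
      ring
    · have e1 : ((ψ ((n * l) % (q * D)) : ℤ) : ℝ) = (ψ (n * l) : ℝ) := by
        rw [← hψ ((n * l) % (q * D)), Nat.mod_mul_left_mod, hψ]
      simp only
      rw [e1, hmul, hn2]
      push_cast
      ring
  linarith

section general

variable {K : ℕ} {P R S : ℕ → ℤ} {c : ℕ → ℕ}

/-- the general real identity -/
theorem cyc_identity' (h : Cyc K P R S c) (D : ℕ) (ψ : ℕ → ℤ) (hD0 : 0 < D)
    (hψ : ∀ n, ψ (n % D) = ψ n)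
    (q : ℕ) (hq : 0 < q) (f : ℤ → ℝ)
    (hrow : ∀ k, ∑ l ∈ range (q * D), gs f (fun l => (ψ l : ℝ)) k l = 0)
    (hper : ∀ x, f (x + q) = f x) (hodd : ∀ x, f (-x) = - f x)
    (hmean : ∑ r ∈ range q, ∑ s ∈ range q,
      f (P 0 * (r : ℤ) ^ 2 + R 0 * r * s - S 0 * (s : ℤ) ^ 2) = 0)
    (hcnt : ∀ n : ℕ, n ≠ 0 →
      ((∑ k ∈ range K, (edgeSet (P k) (R k) (S k) (c k) n).ncard : ℕ) : ℤ) = sg ψ n) :
    ∑ k ∈ range K, (2 * SS q f (P k) (R k) (S k) - c k * MX q f (P k) (R k) (S k))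
      = bb q (q * D) (gs f (fun l => (ψ l : ℝ))) := by
  have : NeZero q := ⟨hq.ne'⟩
  have hF := Fq_neg hper hodd
  rw [← cyc_alg h q hq f hodd hper]
  let s : Finset (Σ _ : ℕ, ℕ) := (range K).sigma (fun k => range (c k))
  let A : (Σ _ : ℕ, ℕ) → ℤ := fun x => Ai (P x.1) (R x.1) (S x.1) x.2
  let C : (Σ _ : ℕ, ℕ) → ℤ := fun x => Ci (P x.1) (R x.1) (S x.1) x.2
  let E : (Σ _ : ℕ, ℕ) → ℤ := fun x => Ai (P x.1) (R x.1) (S x.1) (x.2 + 1)
  have hAend : ∀ k < K, 0 < P k + R k * (c k) - S k * (c k : ℤ) ^ 2 := by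
    intro k hk
    rw [← h.hS k hk]; exact h.Spos (k + 1) hk
  have hpos : ∀ k < K, ∀ i ≤ c k, 0 < Ai (P k) (R k) (S k) i := fun k hk i hi =>
    Ai_pos' (h.cpos k hk) (h.Ppos hk.le) (h.Spos k hk.le) (hAend k hk) i hi
  have hA : ∀ i ∈ s, 0 < A i := by
    rintro ⟨k, i⟩ hi
    simp only [s, Finset.mem_sigma, Finset.mem_range] at hi
    exact hpos k hi.1 i hi.2.le
  have hE : ∀ i ∈ s, 0 < E i := by
    rintro ⟨k, i⟩ hi
    simp only [s, Finset.mem_sigma, Finset.mem_range] at hi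
    have := hpos k hi.1 (i + 1) hi.2
    push_cast at this
    exact this
  have hC : ∀ i ∈ s, 0 < C i := by
    rintro ⟨k, i⟩ hi
    have h1 := hA _ hi
    have h2 := hE _ hi
    simp only [s, Finset.mem_sigma, Finset.mem_range] at hi
    simp only [A, E, C] at *
    rw [Ci_eq]
    have := h.Spos k hi.1.le
    linarith
  have hD : ∀ i ∈ s, 4 * A i * E i < (C i) ^ 2 := by
    rintro ⟨k, i⟩ hi
    simp only [s, Finset.mem_sigma, Finset.mem_range] at hi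
    simp only [A, E, C]
    rw [disc_eq]
    have h1 : 0 ≤ R k ^ 2 := sq_nonneg _
    have h2 : 0 < P k * S k := mul_pos (h.Ppos hi.1.le) (h.Spos k hi.1.le)
    linarith
  have hray : ∀ g : ℤ → ℝ, ∑ i ∈ s, g (A i) = ∑ i ∈ s, g (E i) := by
    intro g
    simp only [s, A, E]
    rw [Finset.sum_sigma, Finset.sum_sigma]
    have h1 : ∀ k ∈ range K, ∑ i ∈ range (c k), g (Ai (P k) (R k) (S k) i)
        = ∑ i ∈ range (c k), g (Ai (P k) (R k) (S k) (i + 1)) + (g (P k) - g (S (k + 1))) := by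
      intro k hk
      have hk' := Finset.mem_range.1 hk
      have r := ray_edge (P k) (R k) (S k) (c k) g
      have v1 : Ai (P k) (R k) (S k) 0 = P k := by unfold Ai; ring
      have v2 : Ai (P k) (R k) (S k) (c k) = S (k + 1) := by rw [Ai_end, h.hS k hk']
      rw [v1, v2] at r
      linarith
    rw [Finset.sum_congr rfl h1, Finset.sum_add_distrib]
    have h2 : ∑ k ∈ range K, (g (P k) - g (S (k + 1))) = 0 := by
      rw [Finset.sum_sub_distrib]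
      have c1 := sum_cyc K (fun k => g (P k)) (by simp only [h.P0])
      have c2 := sum_cyc K (fun k => g (S k)) (by simp only [h.S0])
      have c3 : ∑ k ∈ range K, g (P (k + 1)) = ∑ k ∈ range K, g (S k) :=
        Finset.sum_congr rfl (fun k hk => by rw [h.hP k (Finset.mem_range.1 hk)])
      rw [c2, ← c3, c1]
      ring
    rw [h2, add_zero]
  have hmean0 : S2 (fun x y => Fq q f (QQ (P 0 : ZMod q) (R 0) (S 0) x y)) = 0 := by
    rw [← hmean, sum_range_S2 (q := q) (fun r s => f (P 0 * (r : ℤ) ^ 2 + R 0 * r * s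
      - S 0 * (s : ℤ) ^ 2))]
    apply S2_congr
    intro x y
    rw [← Fq_intCast hper]
    push_cast
    rw [ZMod.natCast_zmod_val, ZMod.natCast_zmod_val]
    rfl
  have hmean' : ∀ i ∈ s, ∑ r ∈ range q, ∑ u ∈ range q, gq f (A i) (C i) (E i) r u = 0 := by
    rintro ⟨k, i⟩ hi
    simp only [s, Finset.mem_sigma, Finset.mem_range] at hi
    simp only [A, E, C]
    rw [mean_range hper, mean_cone (Fq q f) (P k) (R k) (S k) i]
    exact Cyc.mean_all (Fq q f) hF h hmean0 k hi.1.le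
  have hcount : ∀ n : ℕ, n ≠ 0 → ∑ i ∈ s, (cnt (A i) (C i) (E i) n : ℝ)
      = ∑ l ∈ n.divisors, (ψ l : ℝ) := by
    intro n hn
    have h9 : ∑ l ∈ n.divisors, (ψ l : ℝ) = ((sg ψ n : ℤ) : ℝ) := by
      unfold sg; push_cast; rfl
    rw [h9, ← hcnt n hn]
    simp only [s, A, E, C]
    rw [Finset.sum_sigma]
    simp only
    push_cast
    apply Finset.sum_congr rfl
    intro k hk
    have hk' := Finset.mem_range.1 hk
    rw [edge_count (P k) (R k) (S k) (c k) n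
      (edgeSet_finite (h.cpos k hk') (h.Ppos hk'.le) (h.Spos k hk'.le) (hAend k hk') n)]
    push_cast
    rfl
  have key := engine (q := q) (D0 := D) (f := f) (ψ := fun l => (ψ l : ℝ)) s A C E
    hA hE hC hD hray hq hD0 hper hodd
    (by
      intro n
      show ((ψ (n % D) : ℤ) : ℝ) = (ψ n : ℝ)
      rw [hψ])
    (fun k _ => hrow k) hmean' hcount
  rw [← key]
  simp only [s, A, E, C]
  rw [Finset.sum_sigma]

/-- **general T5** -/
theorem cyc_T5' (h : Cyc K P R S c) (D : ℕ) (ψ : ℕ → ℤ) (hD0 : 0 < D)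
    (hψ : ∀ n, ψ (n % D) = ψ n) (hmulψ : ∀ a b, ψ (a * b) = ψ a * ψ b)
    (hcnt : ∀ n : ℕ, n ≠ 0 →
      ((∑ k ∈ range K, (edgeSet (P k) (R k) (S k) (c k) n).ncard : ℕ) : ℤ) = sg ψ n)
    (q l : ℕ) (hq : 0 < q) [Fact l.Prime] 
    (hN : ∃ N : ℕ, N ≡ 1 [MOD q] ∧ Nat.Coprime N (q * D) ∧ ψ N = -1) (hl6 : ¬ l ∣ 6)
    (hlD : ¬ l ∣ D)
    (hmean : ∀ f : ℤ → ℝ, (∀ x, f (x + q) = f x) → (∀ x, f (-x) = - f x) →
      ∑ r ∈ range q, ∑ s ∈ range q,
        f (P 0 * (r : ℤ) ^ 2 + R 0 * r * s - S 0 * (s : ℤ) ^ 2) = 0)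
    (χ : ZMod q → ZMod l)
    (hodd : ∀ x, χ (-x) = - χ x) (hmul : ∀ x y, χ (x * y) = χ x * χ y)
    (hsum : ∑ u ∈ range q, (u : ZMod l) * χ (u : ZMod q) = 0) :
    ∑ k ∈ range K, ∑ r ∈ range q, ∑ s ∈ range q,
      χ ((P k * (r : ℤ) ^ 2 + R k * r * s - S k * (s : ℤ) ^ 2 : ℤ) : ZMod q)
        * (3 * ((bZ q r : ZMod l) * bZ q s) - c k * b2Z q r) = 0 := by
  have hper' : ∀ x, ((lift χ (x + q) : ℤ) : ℝ) = ((lift χ x : ℤ) : ℝ) := fun x => by
    simp only [lift_per χ]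
  have hodd' : ∀ x, ((lift χ (-x) : ℤ) : ℝ) = - ((lift χ x : ℤ) : ℝ) := fun x => by
    simp only [lift_odd χ hl6 hodd]; push_cast; ring
  have key := cyc_identity' h D ψ hD0 hψ q hq
    (fun x => ((lift χ x : ℤ) : ℝ)) (fun k => row_zero' hq hD0 hψ hmulψ hN hper' k) hper' hodd' (hmean (fun x => ((lift χ x : ℤ) : ℝ)) hper' hodd') hcnt
  have i5 := bb_RZ' ψ hq hD0 (lift χ)
  have hreal : (D : ℝ) * (2 * (∑ k ∈ range K, (3 * (XZ q (lift χ) (P k) (R k) (S k) : ℝ)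
      - c k * (YX q (lift χ) (P k) (R k) (S k) : ℝ))))
      = 3 * (RZ' ψ q D (lift χ) : ℝ) := by
    rw [← i5, ← key]
    simp only [Finset.mul_sum]
    apply Finset.sum_congr rfl
    intro k _
    rw [← SS_XZ hq, ← MX_YX hq]
    ring
  have hint : (D : ℤ) * (2 * (∑ k ∈ range K, (3 * XZ q (lift χ) (P k) (R k) (S k)
      - c k * YX q (lift χ) (P k) (R k) (S k))))
      = 3 * RZ' ψ q D (lift χ) := by
    exact_mod_cast hreal
  have hzmod : (D : ZMod l) * (2 * (∑ k ∈ range K, (3 * (XZ q (lift χ) (P k) (R k) (S k) : ZMod l)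
      - c k * (YX q (lift χ) (P k) (R k) (S k) : ZMod l))))
      = 3 * (RZ' ψ q D (lift χ) : ZMod l) := by
    have := congrArg (Int.cast : ℤ → ZMod l) hint
    push_cast at this
    exact this
  have hR : (RZ' ψ q D (lift χ) : ZMod l) = 0 := by
    have e : (RZ' ψ q D (lift χ) : ZMod l) = (∑ r ∈ range q, χ (r : ZMod q) * (bZ q r : ZMod l)) *
        (∑ s ∈ range (q * D), χ (s : ZMod q) * (ψ s : ZMod l) * (bZ (q * D) s : ZMod l)) := by
      unfold RZ'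
      push_cast
      rw [Finset.sum_mul_sum]
      apply Finset.sum_congr rfl
      intro r _
      apply Finset.sum_congr rfl
      intro s _
      rw [lift_cast]
      push_cast
      rw [hmul]
      ring
    rw [e, sum_chi_bZ χ hq hl6 hodd hsum, zero_mul]
  rw [hR, mul_zero] at hzmod
  have hD' : (D : ZMod l) ≠ 0 := by
    rw [Ne, ZMod.natCast_eq_zero_iff]
    exact hlD
  have h1 := (mul_eq_zero.1 ((mul_eq_zero.1 hzmod).resolve_left hD')).resolve_left (two_ne hl6)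
  rw [← h1]
  apply Finset.sum_congr rfl
  intro k _
  unfold XZ YX
  push_cast
  simp only [Finset.mul_sum]
  rw [← Finset.sum_sub_distrib]
  apply Finset.sum_congr rfl
  intro r _
  rw [← Finset.sum_sub_distrib]
  apply Finset.sum_congr rfl
  intro s _
  rw [lift_cast]
  push_cast
  ring

end general

/-- the mean value condition for even cycles and odd conductors -/
theorem mean_even' (m B : ℤ) (q : ℕ) (hq : 0 < q) (hq2 : q % 2 = 1)
    (hcop : IsCoprime (q : ℤ) (B ^ 2 + 4 * m)) (f : ℤ → ℝ) (hper : ∀ x, f (x + q) = f x)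
    (hodd : ∀ x, f (-x) = - f x) :
    ∑ r ∈ range q, ∑ s ∈ range q, f (m * (r : ℤ) ^ 2 + B * r * s - 1 * (s : ℤ) ^ 2) = 0 := by
  obtain ⟨i, hi⟩ : ∃ i : ℤ, (m + i * q) % 2 = 1 := by
    rcases Int.emod_two_eq_zero_or_one m with h | h
    · exact ⟨1, by omega⟩
    · exact ⟨0, by omega⟩
  obtain ⟨j, hj⟩ : ∃ j : ℤ, (B + j * q) % 2 = 1 := by
    rcases Int.emod_two_eq_zero_or_one B with h | h
    · exact ⟨1, by omega⟩
    · exact ⟨0, by omega⟩
  rw [← mean_even (m + i * q) (B + j * q) hi hj q hq _ f hper hodd]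
  · apply Finset.sum_congr rfl
    intro r _
    apply Finset.sum_congr rfl
    intro s _
    apply per_congr hper
    refine ⟨-(i * r ^ 2 + j * r * s), ?_⟩
    ring
  · have e : (B + j * q) ^ 2 + 4 * (m + i * q) = (B ^ 2 + 4 * m) + q * (2 * B * j + j ^ 2 * q + 4 * i) := by
      ring
    rw [e]
    exact (IsCoprime.add_mul_left_right_iff).2 hcop

/-- **T5 for cycles of even length, general character.** -/
theorem even_T5' (m B : ℤ) (hm : 0 < m) {K : ℕ}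
    {P R S : ℕ → ℤ} {c : ℕ → ℕ} (h : CG.CycM m B K P R S c) (J : ℕ) (hK : K = 2 * J) (hJ : 0 < J)
    (hcl : CG.rho m B c K = CG.rho m B c (K + 1) * CG.om m B)
    (hP1 : ∀ k < K, k ≠ 1 → P k ≠ 1)
    [IsDomain (QuadraticAlgebra ℤ m B)] [UniqueFactorizationMonoid (QuadraticAlgebra ℤ m B)]
    {D : ℕ} {ψ : ℕ → ℤ} (hKr : Kr m B D ψ) (hD0 : 0 < D) (hψ : ∀ n, ψ (n % D) = ψ n)
    (q l : ℕ) (hq : 0 < q) (hq2 : q % 2 = 1) [Fact l.Prime] (hcop : Nat.Coprime q D)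
    (hN : ∃ N : ℕ, N ≡ 1 [MOD q] ∧ Nat.Coprime N (q * D) ∧ ψ N = -1)
    (hl6 : ¬ l ∣ 6) (hlD : ¬ l ∣ D)
    (χ : ZMod q → ZMod l)
    (hodd : ∀ x, χ (-x) = - χ x) (hmul : ∀ x y, χ (x * y) = χ x * χ y)
    (hsum : ∑ u ∈ range q, (u : ZMod l) * χ (u : ZMod q) = 0) :
    ∑ k ∈ range K, ∑ r ∈ range q, ∑ s ∈ range q,
      χ ((P k * (r : ℤ) ^ 2 + R k * r * s - S k * (s : ℤ) ^ 2 : ℤ) : ZMod q)
        * (3 * ((bZ q r : ZMod l) * bZ q s) - c k * b2Z q r) = 0 := by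
  refine cyc_T5' h.toCyc D ψ hD0 hψ hKr.mul ?_ q l hq hN hl6 hlD ?_ χ hodd hmul hsum
  · intro n hn
    rw [← CG.count_even hm h J hK hJ hcl hP1 n hn]
    exact (hKr.ncard_SN n hn).2
  · intro f hper hodd'
    rw [h.Pm, h.RB, h.S1]
    apply mean_even' m B q hq hq2 _ f hper hodd'
    rw [← hKr.hD]
    exact Nat.isCoprime_iff_coprime.2 hcop

/-- an element of norm `±n` gives a representation by one of the edges -/
theorem even_rep' (m B : ℤ) (hm : 0 < m) {K : ℕ}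
    {P R S : ℕ → ℤ} {c : ℕ → ℕ} (h : CG.CycM m B K P R S c) (J : ℕ) (hK : K = 2 * J) (hJ : 0 < J)
    (hcl : CG.rho m B c K = CG.rho m B c (K + 1) * CG.om m B)
    (hP1 : ∀ k < K, k ≠ 1 → P k ≠ 1)
    [IsDomain (QuadraticAlgebra ℤ m B)] [UniqueFactorizationMonoid (QuadraticAlgebra ℤ m B)]
    {D : ℕ} {ψ : ℕ → ℤ} (hKr : Kr m B D ψ)
    (n : ℕ) (hn : n ≠ 0) (π : QuadraticAlgebra ℤ m B) (hπ : π.norm.natAbs = n) :
    ∃ k < K, ∃ x y : ℕ, 1 ≤ x ∧ y < c k * x ∧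
      P k * (x : ℤ) ^ 2 + R k * x * y - S k * (y : ℤ) ^ 2 = n := by
  have h1 := CG.count_even hm h J hK hJ hcl hP1 n hn
  have h2 := (hKr.ncard_SN n hn).1
  have h3 : (SN m B n).ncard ≠ 0 := by
    rw [Ne, Set.ncard_eq_zero h2, ← Ne, ← Set.nonempty_iff_ne_empty]
    refine ⟨Associates.mk π, ?_⟩
    change absN _ = n
    rw [absN_mk]
    exact hπ
  rw [h1] at h3
  obtain ⟨k, hk, hk'⟩ := Finset.exists_ne_zero_of_sum_ne_zero h3
  have hne : (edgeSet (P k) (R k) (S k) (c k) n).Nonempty :=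
    Set.nonempty_of_ncard_ne_zero hk'
  obtain ⟨⟨x, y⟩, hx, hy, he⟩ := hne
  exact ⟨k, Finset.mem_range.1 hk, x, y, hx, hy, he⟩

/-- a non-inert prime is represented by one of the edges -/
theorem even_inert' (m B : ℤ) (hm : 0 < m) {K : ℕ}
    {P R S : ℕ → ℤ} {c : ℕ → ℕ} (h : CG.CycM m B K P R S c) (J : ℕ) (hK : K = 2 * J) (hJ : 0 < J)
    (hcl : CG.rho m B c K = CG.rho m B c (K + 1) * CG.om m B)
    (hP1 : ∀ k < K, k ≠ 1 → P k ≠ 1)
    [IsDomain (QuadraticAlgebra ℤ m B)] [UniqueFactorizationMonoid (QuadraticAlgebra ℤ m B)]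
    {D : ℕ} {ψ : ℕ → ℤ} (hKr : Kr m B D ψ)
    (p : ℕ) (hp : p.Prime) (hj : ψ p ≠ -1) :
    ∃ k < K, ∃ x y : ℕ, 1 ≤ x ∧ y < c k * x ∧
      P k * (x : ℤ) ^ 2 + R k * x * y - S k * (y : ℤ) ^ 2 = p := by
  obtain ⟨π, _, _, hπ⟩ := hKr.exists_prime_elem hp hj
  exact even_rep' m B hm h J hK hJ hcl hP1 hKr p hp.ne_zero π hπ

end Pool.Agent.Lib_helper5.RDF
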